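import Pool.Agent.K4H9.PO.Gen

/-! Diagrams with few negative crossings. -/

set_option autoImplicit false

namespace Pool.Agent.K4H9.PO

open Finset LaurentPolynomial Pool.Agent.H891R2.HO

variable {k : ℕ}

/-- the number of negative crossings -/
def negs (w : Fin k → Bool) (o : Fin k × Fin 4 → Bool) : ℕ :=
  (univ.filter (fun i => Shadow.sign w o i = -1)).card

/-- the number of positive crossings -/
def poss (w : Fin k → Bool) (o : Fin k × Fin 4 → Bool) : ℕ :=
  (univ.filter (fun i => Shadow.sign w o i = 1)).card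

theorem sign_cases (w : Fin k → Bool) (o : Fin k × Fin 4 → Bool) (i : Fin k) :
    Shadow.sign w o i = 1 ∨ Shadow.sign w o i = -1 := by
  unfold Shadow.sign
  split_ifs
  · exact Or.inr rfl
  · exact Or.inl rfl

theorem sum_sign_sub (w : Fin k → Bool) (o : Fin k × Fin 4 → Bool) (S : Finset (Fin k)) :
    (S.card : ℤ) - 2 * negs w o ≤ ∑ i ∈ S, Shadow.sign w o i := by
  have h1 : ∀ i ∈ S, Shadow.sign w o i = 1 - 2 * (if Shadow.sign w o i = -1 then 1 else 0) := by
    intro i _
    rcases sign_cases w o i with h | h <;> rw [h] <;> norm_num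
  rw [Finset.sum_congr rfl h1, Finset.sum_sub_distrib, ← Finset.mul_sum, Finset.sum_boole]
  have h2 : (S.filter (fun i => Shadow.sign w o i = -1)).card ≤ negs w o :=
    Finset.card_le_card (Finset.filter_subset_filter _ (Finset.subset_univ S))
  have h3 : ((S.filter (fun i => Shadow.sign w o i = -1)).card : ℤ) ≤ negs w o := by exact_mod_cast h2
  simp only [Finset.sum_const, nsmul_eq_mul, mul_one]
  linarith

theorem sum_sign (w : Fin k → Bool) (o : Fin k × Fin 4 → Bool) :
    ∑ i, Shadow.sign w o i = (k : ℤ) - 2 * negs w o := by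
  have h1 : ∀ i ∈ (univ : Finset (Fin k)), Shadow.sign w o i =
      1 - 2 * (if Shadow.sign w o i = -1 then 1 else 0) := by
    intro i _
    rcases sign_cases w o i with h | h <;> rw [h] <;> norm_num
  rw [Finset.sum_congr rfl h1, Finset.sum_sub_distrib, ← Finset.mul_sum, Finset.sum_boole]
  simp only [Finset.sum_const, nsmul_eq_mul, mul_one, Finset.card_univ, Fintype.card_fin]
  rfl

theorem weight_gen (w : Fin k → Bool) (o : Fin k × Fin 4 → Bool) (s : Fin k → Bool) :
    (∑ i, if s i = w i then (1 : ℤ) else -1) =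
      (∑ i, Shadow.sign w o i) - 2 * ∑ i ∈ dif o s, Shadow.sign w o i := by
  classical
  have h1 : ∀ i, (if s i = w i then (1 : ℤ) else -1) =
      Shadow.sign w o i - 2 * (if s i ≠ seifert o i then Shadow.sign w o i else 0) := by
    intro i
    have h2 := O6.seifert_sign w o i
    have h3 : (if seifert o i = w i then (1 : ℤ) else -1) = Shadow.sign w o i := h2
    rw [← h3]
    cases s i <;> cases w i <;> cases seifert o i <;> simp
  rw [Finset.sum_congr rfl fun i _ => h1 i, Finset.sum_sub_distrib, ← Finset.mul_sum]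
  unfold dif
  rw [Finset.sum_filter]

/-- the higher coefficients vanish -/
def Van (m : ℤ) (p : ℤ[T;T⁻¹]) : Prop := ∀ j, m < j → p.coeff j = 0

theorem Van.sum {ι : Type*} {m : ℤ} (s : Finset ι) (p : ι → ℤ[T;T⁻¹])
    (h : ∀ i ∈ s, Van m (p i)) : Van m (∑ i ∈ s, p i) := by
  classical
  induction s using Finset.induction_on with
  | empty => intro j _; rfl
  | insert a s ha ih =>
    rw [Finset.sum_insert ha]
    intro j hj
    rw [AddMonoidAlgebra.coeff_add, Finsupp.add_apply, h a (Finset.mem_insert_self a s) j hj,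
      ih (fun i hi => h i (Finset.mem_insert_of_mem hi)) j hj, add_zero]

/-- the exponents of the bracket of a diagram with `n ≥ 1` negative crossings -/
theorem bracket_van (G : Shadow k) (w : Fin k → Bool) (o : Fin k × Fin 4 → Bool) (ho : G.Oriented o)
    (hn : negs w o ≠ 0) (hl : ∀ s, 1 ≤ G.loops s) :
    Van ((∑ i, Shadow.sign w o i) + 2 * circles G o - 4 + 4 * negs w o) (G.bracket w) := by
  unfold Shadow.bracket
  refine Van.sum _ _ fun s _ => ?_
  rw [mul_comm (T _), weight_gen w o s]
  have h2 := (Top.dd_pow (G.loops s - 1)).mul_T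
    ((∑ i, Shadow.sign w o i) - 2 * ∑ i ∈ dif o s, Shadow.sign w o i)
  intro j hj
  refine h2.2 j (lt_of_le_of_lt ?_ hj)
  have h3 := hl s
  rw [Nat.cast_sub h3]
  have h4 := sum_sign_sub w o (dif o s)
  have hn1 : (1 : ℤ) ≤ negs w o := by exact_mod_cast Nat.one_le_iff_ne_zero.2 hn
  by_cases hs : (dif o s).card = 0
  · have e : s = seifert o := by
      rw [Finset.card_eq_zero] at hs
      funext i
      by_contra h'
      have := (mem_dif o s i).2 h'
      rw [hs] at this
      exact absurd this (Finset.notMem_empty i)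
    rw [Finset.card_eq_zero] at hs
    rw [hs, Finset.sum_empty]
    have h5 : (G.loops s : ℤ) = circles G o := by rw [e]; rfl
    rw [h5]
    push_cast
    linarith
  · obtain ⟨n, hn'⟩ := Nat.exists_eq_succ_of_ne_zero hs
    have h6 := loops_bound G o ho n s hn'
    have h7 : (G.loops s : ℤ) ≤ circles G o + n := by exact_mod_cast h6
    rw [hn'] at h4
    push_cast at h4 ⊢
    linarith

theorem f_van (G : Shadow k) (w : Fin k → Bool) (o : Fin k × Fin 4 → Bool) (ho : G.Oriented o)
    (hK : G.IsKnot) (hn : negs w o ≠ 0) :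
    Van (-2 * (k + 1 - circles G o) + 8 * negs w o - 2) (G.f w o) := by
  have h1 := bracket_van G w o ho hn (loops_pos G hK)
  intro j hj
  unfold Shadow.f Shadow.unit
  set W := ∑ i, Shadow.sign w o i with hW
  have hW' : W = (k : ℤ) - 2 * negs w o := sum_sign w o
  have h2 : (G.bracket w * T (-3 * W)).coeff j = 0 := by
    rw [O6.coeff_mul_T]
    refine h1 _ ?_
    rw [hW'] at *
    linarith
  split_ifs
  · rw [one_mul, mul_comm (T _)]
    exact h2
  · have e1 : (-1 : ℤ[T;T⁻¹]) * T (-3 * W) * G.bracket w = -(G.bracket w * T (-3 * W)) := by ring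
    rw [e1, AddMonoidAlgebra.coeff_neg, Finsupp.neg_apply, h2, neg_zero]

theorem bound_of_one (G : Shadow k) (w : Fin k → Bool) (o : Fin k × Fin 4 → Bool) (ho : G.Oriented o)
    (hK : G.IsKnot) (hn : negs w o ≠ 0) (h1 : G.f w o = 1) :
    k + 3 ≤ circles G o + 4 * negs w o := by
  have h2 := f_van G w o ho hK hn
  rw [h1] at h2
  have hs : (circles G o + k) % 2 = 1 := loops_seifert G o ho hK
  by_contra hlt
  have h3 : (1 : ℤ[T;T⁻¹]).coeff 0 = 0 := by
    refine h2 0 ?_
    have h4 : circles G o + 4 * negs w o ≤ k + 1 := by omega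
    have h5 : ((circles G o : ℤ) + 4 * negs w o) ≤ k + 1 := by exact_mod_cast h4
    linarith
  have h := C_apply (R := ℤ) 1 0
  rw [map_one] at h
  rw [h, if_pos rfl] at h3
  exact absurd h3 one_ne_zero

theorem negs_mirror (w : Fin k → Bool) (o : Fin k × Fin 4 → Bool) :
    negs (fun i => !(w i)) o = poss w o := by
  unfold negs poss
  congr 1
  ext i
  simp only [Finset.mem_filter, Finset.mem_univ, true_and, sign_mirror]
  omega

theorem bound_of_one' (G : Shadow k) (w : Fin k → Bool) (o : Fin k × Fin 4 → Bool)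
    (ho : G.Oriented o) (hK : G.IsKnot) (hn : poss w o ≠ 0) (h1 : G.f w o = 1) :
    k + 3 ≤ circles G o + 4 * poss w o := by
  rw [← negs_mirror] at hn ⊢
  refine bound_of_one G _ o ho hK hn ?_
  rw [f_mirror, h1, map_one]

theorem positive_of_negs (w : Fin k → Bool) (o : Fin k × Fin 4 → Bool) (h : negs w o = 0) :
    Positive w o := by
  intro i
  refine (sign_cases w o i).resolve_right fun h' => ?_
  have : i ∈ univ.filter (fun i => Shadow.sign w o i = -1) :=
    Finset.mem_filter.2 ⟨Finset.mem_univ i, h'⟩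
  unfold negs at h
  rw [Finset.card_eq_zero] at h
  rw [h] at this
  exact absurd this (Finset.notMem_empty i)

theorem negative_of_poss (w : Fin k → Bool) (o : Fin k × Fin 4 → Bool) (h : poss w o = 0) :
    ∀ i, Shadow.sign w o i = -1 := by
  intro i
  refine (sign_cases w o i).resolve_left fun h' => ?_
  have : i ∈ univ.filter (fun i => Shadow.sign w o i = 1) :=
    Finset.mem_filter.2 ⟨Finset.mem_univ i, h'⟩
  unfold poss at h
  rw [Finset.card_eq_zero] at h
  rw [h] at this
  exact absurd this (Finset.notMem_empty i)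

end Pool.Agent.K4H9.PO
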