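import Pool.Agent.K4H9.PO.Stm

/-! Pieces. -/

set_option autoImplicit false

namespace Pool.Agent.K4H9.PO

open Pool.Agent.H891R2.HO

/-- PIECE U1 (file `Pool/Agent/K4H9/PO/U1.lean`, `theorem u1 : StU1`).  If no arc joins two corners that are
joined by the oriented smoothing, then every class of `G.loops (seifert o)` contains the four different
corners `c`, `arc c`, `b c`, `arc (b c)`, where `b c = (c.1, pair (seifert o c.1) c.2)`; hence
`4 * circles ≤ 4 * (k + 1)`.  (`pair t (pair t j) = j` and `pair t j ≠ j`: by `decide`.)  So `arc c = b c` for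
some `c = (i, j)`; `pair t j = j + 1` or `j = pair t j + 1`, in the second case take `pair t j` instead of
`j` (`arc_arc`). -/
def StU1 : Prop := ∀ (k : ℕ) (G : Shadow (k + 1)) (o : Fin (k + 1) × Fin 4 → Bool),
  circles G o = k + 2 → ∃ (i : Fin (k + 1)) (j : Fin 4), G.arc (i, j) = (i, j + 1) ∧
    pair (seifert o i) j = j + 1

/-- PIECE U2 (file `Pool/Agent/K4H9/PO/U2.lean`, `theorem u2 : StU2`): removing a kink.  Since `G` is a knot
and `k ≠ 0`, the ends `arc (i, j + 2)` and `arc (i, j + 3)` are at other crossings (otherwise the four corners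
of `i` would be a component of their own).  Put `emb i (G'.arc c)` = the right-hand side in `RemoveKink`.
Components: the way `e - (i, j + 2) - (i, j) - (i, j + 1) - (i, j + 3) - e'` is replaced by the arc `e - e'`.
Seifert circles: the way `e - (i, j + 2) - (i, j + 3) - e'` is replaced by the arc `e - e'`, and the circle
`(i, j) - (i, j + 1)` disappears (so `Quot` of `G` is equivalent to `Option` of `Quot` of `G'`). -/
def StU2 : Prop := ∀ (k : ℕ) (G : Shadow (k + 1)) (i : Fin (k + 1)) (j : Fin 4), k ≠ 0 → G.IsKnot →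
  G.arc (i, j) = (i, j + 1) → ∃ G' : Shadow k, RemoveKink G G' i j ∧ G'.IsKnot ∧
    ∀ o : Fin (k + 1) × Fin 4 → Bool, G.Oriented o → pair (seifert o i) j = j + 1 →
      G'.Oriented (fun c => o (emb i c)) ∧ circles G o = circles G' (fun c => o (emb i c)) + 1

theorem unwinds (u1 : StU1) (u2 : StU2) : ∀ (k : ℕ) (G : Shadow k) (o : Fin k × Fin 4 → Bool),
    G.Oriented o → (k = 0 ∨ G.IsKnot) → circles G o = k + 1 → Unwinds G
  | 0, G, _, _, _, _ => Unwinds.zero G
  | k + 1, G, o, ho, hk, hc => by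
    have hK : G.IsKnot := hk.resolve_left (Nat.succ_ne_zero k)
    obtain ⟨i, j, h1, h2⟩ := u1 k G o hc
    by_cases hk0 : k = 0
    · subst hk0
      obtain ⟨G'⟩ : Nonempty (Shadow 0) :=
        ⟨⟨fun c => c, fun c => rfl, fun c => c.1.elim0⟩⟩
      exact Unwinds.kink G G' i j ⟨h1, fun c => c.1.elim0⟩ (Unwinds.zero G')
    · obtain ⟨G', h3, h4, h5⟩ := u2 k G i j hk0 hK h1
      obtain ⟨h6, h7⟩ := h5 o ho h2
      exact Unwinds.kink G G' i j h3 (unwinds u1 u2 k G' _ h6 (Or.inr h4) (by omega))

end Pool.Agent.K4H9.PO
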