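import Pool.Agent.H891R2.HO.All
import Pool.Agent.K4H9.PO.Spec

/-! The highest exponent of the normalised bracket. -/

set_option autoImplicit false
set_option linter.unusedSimpArgs false

namespace Pool.Agent.K4H9.PO

open Finset LaurentPolynomial Pool.Agent.H891R2.HO Pool.Agent.H891R2.HO.O2

variable {k : ℕ}

/-- the relation of a state -/
def rs (G : Shadow k) (s : Fin k → Bool) (c c' : Fin k × Fin 4) : Prop :=
  c' = G.arc c ∨ c' = (c.1, pair (s c.1) c.2)

theorem r4_of_rs (G : Shadow k) (s : Fin k → Bool) (i : Fin k) (b : Bool) (c c' : Fin k × Fin 4)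
    (h : rs G (Function.update s i b) c c') : Quot.mk (r4 G s i) c = Quot.mk (r4 G s i) c' := by
  rcases h with rfl | rfl
  · exact Quot.sound (Or.inl (Or.inl rfl))
  · by_cases hc : c.1 = i
    · exact Quot.sound (Or.inr ⟨hc, hc⟩)
    · refine Quot.sound (Or.inl (Or.inr ⟨hc, ?_⟩))
      rw [Function.update_of_ne hc]

theorem card_le_loops (G : Shadow k) (s : Fin k → Bool) (i : Fin k) (b : Bool) :
    Nat.card (Quot (r4 G s i)) ≤ G.loops (Function.update s i b) := by
  have hfin : Finite (Quot (rs G (Function.update s i b))) := Quot.finite _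
  have hsurj : Function.Surjective (Quot.lift (fun c => Quot.mk (r4 G s i) c)
      (r4_of_rs G s i b)) := by
    intro q
    obtain ⟨c, rfl⟩ := Quot.exists_rep q
    exact ⟨Quot.mk _ c, rfl⟩
  exact Nat.card_le_card_of_surjective _ hsurj

open Classical in
theorem loops_le_card (G : Shadow k) (s : Fin k → Bool) (i : Fin k) (b : Bool) :
    G.loops (Function.update s i b) ≤ Nat.card (Quot (r4 G s i)) + 1 := by
  set R := rs G (Function.update s i b) with hR
  set q0 : Quot R := Quot.mk R (i, 0) with hq0
  set q2 : Quot R := Quot.mk R (i, 2) with hq2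
  have hcor : ∀ j : Fin 4, Quot.mk R (i, j) = q0 ∨ Quot.mk R (i, j) = q2 := by
    intro j
    have h0 : R (i, 0) (i, pair b 0) := by
      right
      rw [Function.update_self]
    have h2 : R (i, 2) (i, pair b 2) := by
      right
      rw [Function.update_self]
    have e0 := Quot.sound h0
    have e2 := Quot.sound h2
    cases b
    · fin_cases j
      · exact Or.inl rfl
      · exact Or.inr e2.symm
      · exact Or.inr rfl
      · exact Or.inl e0.symm
    · fin_cases j
      · exact Or.inl rfl
      · exact Or.inl e0.symm
      · exact Or.inr rfl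
      · exact Or.inr e2.symm
  set g : Fin k × Fin 4 → Quot R := fun c => if Quot.mk R c = q2 then q0 else Quot.mk R c with hg
  have hgr : ∀ c c', r4 G s i c c' → g c = g c' := by
    rintro c c' (h | ⟨h1, h2⟩)
    · have : Quot.mk R c = Quot.mk R c' := by
        refine Quot.sound ?_
        rcases h with h | ⟨h, h'⟩
        · exact Or.inl h
        · right
          rw [Function.update_of_ne h]
          exact h'
      show (if Quot.mk R c = q2 then q0 else Quot.mk R c) = if Quot.mk R c' = q2 then q0 else Quot.mk R c'
      rw [this]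
    · have key : ∀ c : Fin k × Fin 4, c.1 = i → g c = q0 := by
        intro c hc
        have hc' : c = (i, c.2) := by rw [← hc]
        show (if Quot.mk R c = q2 then q0 else Quot.mk R c) = q0
        rw [hc']
        split_ifs with h
        · rfl
        · exact (hcor c.2).resolve_right h
      rw [key c h1, key c' h2]
  have hfin : Finite (Quot (r4 G s i)) := Quot.finite _
  have hinj : Function.Injective (fun q : Quot R => if q = q2 then none else
      some (Quot.lift (fun c => Quot.mk (r4 G s i) c) (r4_of_rs G s i b) q)) := by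
    intro q q' h
    simp only at h
    by_cases hq : q = q2
    · by_cases hq' : q' = q2
      · rw [hq, hq']
      · rw [if_pos hq, if_neg hq'] at h
        exact absurd h (by simp)
    · by_cases hq' : q' = q2
      · rw [if_neg hq, if_pos hq'] at h
        exact absurd h (by simp)
      · rw [if_neg hq, if_neg hq'] at h
        obtain ⟨c, rfl⟩ := Quot.exists_rep q
        obtain ⟨c', rfl⟩ := Quot.exists_rep q'
        have h2 := Option.some.inj h
        have h3 := congrArg (Quot.lift g hgr) h2
        have h4 : g c = g c' := h3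
        have h5 : g c = Quot.mk R c := if_neg hq
        have h6 : g c' = Quot.mk R c' := if_neg hq'
        rw [← h5, ← h6, h4]
  have := Nat.card_le_card_of_injective _ hinj
  rw [Finite.card_option] at this
  exact this

open Classical in
/-- in the other crossings, an incoming corner of `i` is connected with an outgoing one -/
theorem exists_opp (G : Shadow k) (o : Fin k × Fin 4 → Bool) (ho : G.Oriented o) (i : Fin k)
    (l : Fin 4) : ∃ m, o (i, m) = !(o (i, l)) ∧
      Quot.mk (r0 G (seifert o) i) (i, m) = Quot.mk (r0 G (seifert o) i) (i, l) := by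
  by_contra hno
  push Not at hno
  set R := r0 G (seifert o) i with hR
  set W : Finset (Fin k × Fin 4) := univ.filter (fun x => Quot.mk R x = Quot.mk R (i, l)) with hW
  have hmem : ∀ x, x ∈ W ↔ Quot.mk R x = Quot.mk R (i, l) := by
    intro x
    rw [hW, Finset.mem_filter]
    simp
  set ε : Fin k × Fin 4 → ℤ := fun x => if o x = true then 1 else -1 with hε
  have h1 : ∑ x ∈ W, ε x = 0 := by
    refine Finset.sum_involution (fun x _ => G.arc x) ?_ ?_ ?_ ?_
    · intro x _
      show (if o x = true then (1 : ℤ) else -1) + (if o (G.arc x) = true then 1 else -1) = 0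
      rw [ho.1 x]
      cases o x <;> simp
    · intro x _ _
      exact G.arc_ne x
    · intro x hx
      rw [hmem] at hx ⊢
      rw [← hx]
      have hr : R x (G.arc x) := Or.inl rfl
      exact (Quot.sound hr).symm
    · intro x _
      exact G.arc_arc x
  have h2 : ∑ x ∈ W.filter (fun x => x.1 ≠ i), ε x = 0 := by
    refine Finset.sum_involution (fun x _ => (x.1, pair (seifert o x.1) x.2)) ?_ ?_ ?_ ?_
    · intro x _
      show (if o x = true then (1 : ℤ) else -1) +
        (if o (x.1, pair (seifert o x.1) x.2) = true then 1 else -1) = 0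
      have := O5.o_pair o ho.2 x.1 x.2
      have e : O5.ty o x.1 = seifert o x.1 := rfl
      rw [e] at this
      rw [this]
      cases o (x.1, x.2) <;> simp
    · intro x _ _ h
      have := congrArg Prod.snd h
      have h3 : pair (seifert o x.1) x.2 = x.2 := this
      revert h3
      generalize seifert o x.1 = t
      generalize x.2 = y
      revert t y
      decide
    · intro x hx
      rw [Finset.mem_filter, hmem] at hx ⊢
      refine ⟨?_, hx.2⟩
      rw [← hx.1]
      have hr : R x (x.1, pair (seifert o x.1) x.2) := Or.inr ⟨hx.2, rfl⟩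
      exact (Quot.sound hr).symm
    · intro x _
      show ((x.1, pair (seifert o x.1) (pair (seifert o x.1) x.2)) : Fin k × Fin 4) = x
      rw [O2.pair_pair]
  have h3 : ∑ x ∈ W.filter (fun x => ¬ (x.1 ≠ i)), ε x = 0 := by
    have := Finset.sum_filter_add_sum_filter_not W (fun x => x.1 ≠ i) ε
    rw [h1, h2, zero_add] at this
    exact this
  have h4 : ∀ x ∈ W.filter (fun x => ¬ (x.1 ≠ i)), ε x = ε (i, l) := by
    intro x hx
    rw [Finset.mem_filter, hmem, not_not] at hx
    have hx' : x = (i, x.2) := by rw [← hx.2]
    show (if o x = true then (1 : ℤ) else -1) = if o (i, l) = true then 1 else -1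
    have : o x = o (i, l) := by
      by_contra h
      refine hno x.2 ?_ ?_
      · rw [← hx']
        revert h
        cases o x <;> cases o (i, l) <;> simp
      · rw [← hx']
        exact hx.1
    rw [this]
  rw [Finset.sum_congr rfl h4, Finset.sum_const, nsmul_eq_mul] at h3
  have h5 : (i, l) ∈ W.filter (fun x => ¬ (x.1 ≠ i)) := by
    rw [Finset.mem_filter, hmem]
    simp
  have h6 : (W.filter (fun x => ¬ (x.1 ≠ i))).card ≠ 0 := Finset.card_ne_zero_of_mem h5
  have h7 : ε (i, l) ≠ 0 := by
    show (if o (i, l) = true then (1 : ℤ) else -1) ≠ 0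
    split_ifs <;> norm_num
  rcases mul_eq_zero.1 h3 with h | h
  · exact h6 (by exact_mod_cast h)
  · exact h7 h

/-- changing the oriented smoothing of one crossing -/
theorem loops_flip_seifert (G : Shadow k) (o : Fin k × Fin 4 → Bool) (ho : G.Oriented o) (i : Fin k) :
    G.loops (Function.update (seifert o) i (!(seifert o i))) ≤ circles G o := by
  have h1 : Nat.card (Quot (r4 G (seifert o) i)) ≤ circles G o := by
    have := card_le_loops G (seifert o) i (seifert o i)
    rw [Function.update_eq_self] at this
    exact this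
  refine le_trans ?_ h1
  set s' := Function.update (seifert o) i (!(seifert o i)) with hs'
  set R := rs G s' with hR
  have hlift : ∀ c c', Quot.mk (r0 G (seifert o) i) c = Quot.mk (r0 G (seifert o) i) c' →
      Quot.mk R c = Quot.mk R c' := by
    intro c c' h
    have hh : ∀ c c', r0 G (seifert o) i c c' → Quot.mk R c = Quot.mk R c' := by
      rintro c c' (h | ⟨h, h'⟩)
      · exact Quot.sound (Or.inl h)
      · refine Quot.sound (Or.inr ?_)
        rw [hs', Function.update_of_ne h]
        exact h'
    exact congrArg (Quot.lift (fun c => Quot.mk R c) hh) h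
  have hpair : ∀ j, Quot.mk R (i, pair (!(seifert o i)) j) = Quot.mk R (i, j) := by
    intro j
    have hr : R (i, j) (i, pair (!(seifert o i)) j) := by
      right
      rw [hs', Function.update_self]
    exact (Quot.sound hr).symm
  have b2 : o (i, 2) = !(o (i, 0)) := ho.2 i 0
  have b3 : o (i, 3) = !(o (i, 1)) := ho.2 i 1
  -- all corners are in the class of (i, 0)
  have hall : ∀ j, Quot.mk R (i, j) = Quot.mk R (i, 0) := by
    obtain ⟨m, hm, hm'⟩ := exists_opp G o ho i 0
    have hm2 := hlift _ _ hm'
    have p0 := hpair 0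
    have p1 := hpair 1
    have p2 := hpair 2
    have p3 := hpair 3
    have hsei : seifert o i = xor (o (i, 0)) (o (i, 1)) := rfl
    have key : ∀ t : Bool, seifert o i = t → ∀ j, Quot.mk R (i, j) = Quot.mk R (i, 0) := by
      intro t ht
      rw [ht] at p0 p1 p2 p3
      cases t
      · have q0 : Quot.mk R (i, 1) = Quot.mk R (i, 0) := p0
        have q2 : Quot.mk R (i, 3) = Quot.mk R (i, 2) := p2
        have hm3 : m = 2 ∨ m = 3 := by
          rw [hsei] at ht
          fin_cases m
          · exfalso
            have h : o (i, 0) = !(o (i, 0)) := hm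
            revert h
            cases o (i, 0) <;> simp
          · exfalso
            have h : o (i, 1) = !(o (i, 0)) := hm
            revert h ht
            cases o (i, 0) <;> cases o (i, 1) <;> simp
          · exact Or.inl rfl
          · exact Or.inr rfl
        have q3 : Quot.mk R (i, 2) = Quot.mk R (i, 0) := by
          rcases hm3 with rfl | rfl
          · exact hm2
          · exact q2.symm.trans hm2
        intro j
        fin_cases j
        · rfl
        · exact q0
        · exact q3
        · exact q2.trans q3
      · have q0 : Quot.mk R (i, 3) = Quot.mk R (i, 0) := p0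
        have q2 : Quot.mk R (i, 1) = Quot.mk R (i, 2) := p2
        have hm3 : m = 2 ∨ m = 1 := by
          rw [hsei] at ht
          fin_cases m
          · exfalso
            have h : o (i, 0) = !(o (i, 0)) := hm
            revert h
            cases o (i, 0) <;> simp
          · exact Or.inr rfl
          · exact Or.inl rfl
          · exfalso
            have h : o (i, 3) = !(o (i, 0)) := hm
            rw [b3] at h
            revert h ht
            cases o (i, 0) <;> cases o (i, 1) <;> simp
        have q3 : Quot.mk R (i, 2) = Quot.mk R (i, 0) := by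
          rcases hm3 with rfl | rfl
          · exact hm2
          · exact q2.symm.trans hm2
        intro j
        fin_cases j
        · rfl
        · exact q2.trans q3
        · exact q3
        · exact q0
    exact key _ rfl
  have hfin : Finite (Quot (r4 G (seifert o) i)) := Quot.finite _
  have h4 : ∀ c c', r4 G (seifert o) i c c' → Quot.mk R c = Quot.mk R c' := by
    rintro c c' (h | ⟨h1, h2⟩)
    · exact hlift _ _ (Quot.sound h)
    · have e1 : c = (i, c.2) := by rw [← h1]
      have e2 : c' = (i, c'.2) := by rw [← h2]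
      rw [e1, e2, hall c.2, hall c'.2]
  have hsurj : Function.Surjective (Quot.lift (fun c => Quot.mk R c) h4) := by
    intro q
    obtain ⟨c, rfl⟩ := Quot.exists_rep q
    exact ⟨Quot.mk _ c, rfl⟩
  exact Nat.card_le_card_of_surjective _ hsurj

/-! ### the number of circles of the other states -/

/-- the crossings where the state is not the oriented one -/
def dif (o : Fin k × Fin 4 → Bool) (s : Fin k → Bool) : Finset (Fin k) :=
  univ.filter (fun i => s i ≠ seifert o i)

theorem mem_dif (o : Fin k × Fin 4 → Bool) (s : Fin k → Bool) (i : Fin k) :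
    i ∈ dif o s ↔ s i ≠ seifert o i := by
  unfold dif
  rw [Finset.mem_filter]
  simp

theorem loops_bound (G : Shadow k) (o : Fin k × Fin 4 → Bool) (ho : G.Oriented o) :
    ∀ (n : ℕ) (s : Fin k → Bool), (dif o s).card = n + 1 → G.loops s ≤ circles G o + n
  | 0, s, hs => by
    obtain ⟨i, hi⟩ := Finset.card_eq_one.1 hs
    have e : s = Function.update (seifert o) i (!(seifert o i)) := by
      funext i'
      by_cases h : i' = i
      · subst h
        rw [Function.update_self]
        have : i' ∈ dif o s := by rw [hi]; exact Finset.mem_singleton_self _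
        rw [mem_dif] at this
        revert this
        cases s i' <;> cases seifert o i' <;> simp
      · rw [Function.update_of_ne h]
        by_contra h'
        have : i' ∈ dif o s := (mem_dif o s i').2 h'
        rw [hi, Finset.mem_singleton] at this
        exact h this
    have := loops_flip_seifert G o ho i
    rw [← e] at this
    omega
  | n + 1, s, hs => by
    obtain ⟨i, hi⟩ : (dif o s).Nonempty := by
      rw [← Finset.card_pos]; omega
    have hi' := (mem_dif o s i).1 hi
    have e : dif o (Function.update s i (seifert o i)) = (dif o s).erase i := by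
      ext i'
      rw [Finset.mem_erase, mem_dif, mem_dif]
      by_cases h : i' = i
      · subst h
        simp
      · rw [Function.update_of_ne h]
        tauto
    have hc : (dif o (Function.update s i (seifert o i))).card = n + 1 := by
      rw [e, Finset.card_erase_of_mem hi, hs]
      rfl
    have ih := loops_bound G o ho n _ hc
    have h3 := loops_le_card G s i (s i)
    have h4 : Function.update s i (s i) = s := Function.update_eq_self i _
    rw [h4] at h3
    have h5 := card_le_loops G s i (seifert o i)
    omega

theorem seifert_eq (w : Fin k → Bool) (o : Fin k × Fin 4 → Bool) (hP : Positive w o) : w = seifert o := by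
  funext i
  have h1 := O6.seifert_sign w o i
  rw [hP i] at h1
  by_contra h
  rw [if_neg (fun h' => h h'.symm)] at h1
  exact absurd h1 (by norm_num)

theorem weight_eq (o : Fin k × Fin 4 → Bool) (s : Fin k → Bool) :
    (∑ i, if s i = seifert o i then (1 : ℤ) else -1) = k - 2 * (dif o s).card := by
  have h1 : ∀ i, (if s i = seifert o i then (1 : ℤ) else -1) =
      1 - 2 * (if s i ≠ seifert o i then 1 else 0) := by
    intro i
    by_cases h : s i = seifert o i
    · simp [h]
    · simp [h]
  rw [Finset.sum_congr rfl fun i _ => h1 i, Finset.sum_sub_distrib, ← Finset.mul_sum,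
    Finset.sum_boole]
  simp [dif]

/-! ### highest exponents -/

/-- the coefficient at `m` is `c`, and the higher ones vanish -/
def Top (m : ℤ) (p : ℤ[T;T⁻¹]) (c : ℤ) : Prop := p.coeff m = c ∧ ∀ j, m < j → p.coeff j = 0

theorem Top.mul_T {m c : ℤ} {p : ℤ[T;T⁻¹]} (h : Top m p c) (n : ℤ) : Top (m + n) (p * T n) c := by
  constructor
  · rw [O6.coeff_mul_T]
    have : m + n - n = m := by ring
    rw [this]
    exact h.1
  · intro j hj
    rw [O6.coeff_mul_T]
    exact h.2 _ (by omega)

theorem Top.add {m c d : ℤ} {p q : ℤ[T;T⁻¹]} (hp : Top m p c) (hq : Top m q d) :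
    Top m (p + q) (c + d) := by
  constructor
  · rw [AddMonoidAlgebra.coeff_add, Finsupp.add_apply, hp.1, hq.1]
  · intro j hj
    rw [AddMonoidAlgebra.coeff_add, Finsupp.add_apply, hp.2 j hj, hq.2 j hj, add_zero]

theorem Top.neg {m c : ℤ} {p : ℤ[T;T⁻¹]} (hp : Top m p c) : Top m (-p) (-c) := by
  constructor
  · rw [AddMonoidAlgebra.coeff_neg, Finsupp.neg_apply, hp.1]
  · intro j hj
    rw [AddMonoidAlgebra.coeff_neg, Finsupp.neg_apply, hp.2 j hj, neg_zero]

theorem Top.lift {m m' c : ℤ} {p : ℤ[T;T⁻¹]} (hp : Top m p c) (h : m < m') : Top m' p 0 :=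
  ⟨hp.2 _ h, fun j hj => hp.2 _ (by omega)⟩

theorem Top.zero (m : ℤ) : Top m 0 0 := ⟨rfl, fun _ _ => rfl⟩

theorem Top.sum {ι : Type*} {m : ℤ} (s : Finset ι) (p : ι → ℤ[T;T⁻¹]) (c : ι → ℤ)
    (h : ∀ i ∈ s, Top m (p i) (c i)) : Top m (∑ i ∈ s, p i) (∑ i ∈ s, c i) := by
  classical
  induction s using Finset.induction_on with
  | empty => simpa using Top.zero m
  | insert a s ha ih =>
    rw [Finset.sum_insert ha, Finset.sum_insert ha]
    exact (h a (Finset.mem_insert_self a s)).add (ih fun i hi => h i (Finset.mem_insert_of_mem hi))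

theorem Top.one : Top 0 (1 : ℤ[T;T⁻¹]) 1 := by
  have h := C_apply (R := ℤ) 1
  constructor
  · have := h 0
    rw [map_one] at this
    rw [this]; simp
  · intro j hj
    have := h j
    rw [map_one] at this
    rw [this, if_neg (by omega)]

theorem Top.dd_pow (n : ℕ) : Top (2 * n) (dd ^ n) ((-1) ^ n) := by
  induction n with
  | zero => simpa using Top.one
  | succ n ih =>
    have e : (dd : ℤ[T;T⁻¹]) ^ (n + 1) = -(dd ^ n * T 2) + -(dd ^ n * T (-2)) := by
      rw [pow_succ]; unfold dd; ring
    rw [e]
    have h1 := (ih.mul_T 2).neg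
    have h2 := (ih.mul_T (-2)).neg.lift (m' := 2 * (n : ℤ) + 2) (by omega)
    have h3 := h1.add h2
    have e1 : (2 * ((n + 1 : ℕ) : ℤ)) = 2 * (n : ℤ) + 2 := by push_cast; ring
    have e2 : ((-1 : ℤ)) ^ (n + 1) = -(-1) ^ n + 0 := by ring
    rw [e1, e2]
    exact h3

/-- the highest exponent of the bracket -/
theorem bracket_top (G : Shadow k) (w : Fin k → Bool) (o : Fin k × Fin 4 → Bool) (ho : G.Oriented o)
    (hP : Positive w o) (hl : ∀ s, 1 ≤ G.loops s) :
    Top (k + 2 * (circles G o - 1)) (G.bracket w) ((-1) ^ (circles G o - 1)) := by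
  classical
  unfold Shadow.bracket
  rw [seifert_eq w o hP]
  have h1 : ∀ s ∈ (univ : Finset (Fin k → Bool)),
      Top ((k : ℤ) + 2 * ((circles G o : ℤ) - 1))
        (T (∑ i, if s i = seifert o i then 1 else -1) * dd ^ (G.loops s - 1))
        (if s = seifert o then (-1) ^ (circles G o - 1) else 0) := by
    intro s _
    rw [mul_comm (T _), weight_eq]
    have h2 := (Top.dd_pow (G.loops s - 1)).mul_T ((k : ℤ) - 2 * ((dif o s).card : ℤ))
    by_cases hs : s = seifert o
    · rw [if_pos hs]
      subst hs
      have e : dif o (seifert o) = ∅ := by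
        ext i
        rw [mem_dif]
        simp
      rw [e, Finset.card_empty] at h2 ⊢
      have e2 : (2 * ((G.loops (seifert o) - 1 : ℕ) : ℤ) + ((k : ℤ) - 2 * ((0 : ℕ) : ℤ))) =
          (k : ℤ) + 2 * ((circles G o : ℤ) - 1) := by
        have := hl (seifert o)
        unfold circles
        rw [Nat.cast_sub this]
        push_cast
        ring
      rw [e2] at h2
      exact h2
    · rw [if_neg hs]
      refine h2.lift ?_
      have h3 : (dif o s).card ≠ 0 := by
        intro h
        rw [Finset.card_eq_zero] at h
        apply hs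
        funext i
        by_contra h'
        have := (mem_dif o s i).2 h'
        rw [h] at this
        exact absurd this (Finset.notMem_empty i)
      obtain ⟨n, hn⟩ := Nat.exists_eq_succ_of_ne_zero h3
      have h4 := loops_bound G o ho n s hn
      have h5 := hl s
      rw [hn, Nat.cast_sub h5]
      push_cast
      omega
  have h2 := Top.sum univ _ _ h1
  rw [Finset.sum_ite_eq' univ (seifert o) (fun _ => (-1 : ℤ) ^ (circles G o - 1)),
    if_pos (mem_univ _)] at h2
  exact h2

theorem loops_pos (G : Shadow k) (hK : G.IsKnot) (s : Fin k → Bool) : 1 ≤ G.loops s := by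
  obtain ⟨c⟩ : Nonempty (Fin k × Fin 4) := by
    unfold Shadow.IsKnot at hK
    have h1 : 0 < Nat.card (Quot (fun c c' : Fin k × Fin 4 =>
      c' = G.arc c ∨ c' = (c.1, c.2 + 2))) := by rw [hK]; exact one_pos
    have h2 := (Nat.card_pos_iff.mp h1).1
    obtain ⟨q⟩ := h2
    obtain ⟨c, _⟩ := Quot.exists_rep q
    exact ⟨c⟩
  exact O3.loops_pos G c.1 s

/-- the highest exponent of the normalised bracket -/
theorem f_top (G : Shadow k) (w : Fin k → Bool) (o : Fin k × Fin 4 → Bool) (ho : G.Oriented o)
    (hK : G.IsKnot) (hP : Positive w o) :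
    Top (-2 * (k + 1 - circles G o)) (G.f w o) 1 := by
  have h1 := bracket_top G w o ho hP (loops_pos G hK)
  have hs : (circles G o + k) % 2 = 1 := loops_seifert G o ho hK
  have hL : 1 ≤ circles G o := loops_pos G hK _
  have hW : (∑ i, Shadow.sign w o i) = k := by
    rw [Finset.sum_congr rfl fun i _ => hP i]
    simp
  unfold Shadow.f Shadow.unit
  rw [hW]
  have h2 := h1.mul_T (-3 * (k : ℤ))
  have e : (k : ℤ) + 2 * ((circles G o : ℤ) - 1) + -3 * (k : ℤ) = -2 * (k + 1 - circles G o) := by ring
  rw [e] at h2
  by_cases hk : Even (k : ℤ)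
  · rw [if_pos hk, one_mul, mul_comm (T _)]
    have hk' : Even k := by exact_mod_cast hk
    have h3 : Even (circles G o - 1) := by
      rw [Nat.even_iff] at hk' ⊢
      omega
    rw [h3.neg_one_pow] at h2
    exact h2
  · rw [if_neg hk]
    have hk' : ¬ Even k := by exact_mod_cast hk
    have h3 : Odd (circles G o - 1) := by
      rw [Nat.not_even_iff] at hk'
      rw [Nat.odd_iff]
      omega
    rw [h3.neg_one_pow] at h2
    have e1 : (-1 : ℤ[T;T⁻¹]) * T (-3 * (k : ℤ)) * G.bracket w =
        -(G.bracket w * T (-3 * (k : ℤ))) := by ring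
    rw [e1]
    have h4 := h2.neg
    rw [neg_neg] at h4
    exact h4

theorem circles_of_one (G : Shadow k) (w : Fin k → Bool) (o : Fin k × Fin 4 → Bool)
    (ho : G.Oriented o) (hK : G.IsKnot) (hP : Positive w o)
    (h1 : G.f w o = 1) : circles G o = k + 1 := by
  have h2 := f_top G w o ho hK hP
  rw [h1] at h2
  by_contra hne
  have h3 : (1 : ℤ[T;T⁻¹]).coeff (-2 * ((k : ℤ) + 1 - circles G o)) = 0 := by
    have h := C_apply (R := ℤ) 1 (-2 * ((k : ℤ) + 1 - circles G o))
    rw [map_one] at h
    rw [h, if_neg (by omega)]
  exact absurd (h3.symm.trans h2.1) (by norm_num)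

/-! ### the mirror image -/

theorem dd_invert : invert dd = dd := by
  unfold dd
  rw [map_sub, map_neg, invert_T, invert_T]
  simp only [neg_neg]
  ring

theorem bracket_mirror (G : Shadow k) (w : Fin k → Bool) :
    G.bracket (fun i => !(w i)) = invert (G.bracket w) := by
  unfold Shadow.bracket
  rw [map_sum]
  refine Finset.sum_congr rfl fun s _ => ?_
  rw [map_mul, map_pow, dd_invert, invert_T, ← Finset.sum_neg_distrib]
  congr 2
  refine Finset.sum_congr rfl fun i _ => ?_
  cases hs : s i <;> cases hw : w i <;> simp [hs, hw]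

theorem sign_mirror (w : Fin k → Bool) (o : Fin k × Fin 4 → Bool) (i : Fin k) :
    Shadow.sign (fun i => !(w i)) o i = -Shadow.sign w o i := by
  unfold Shadow.sign
  cases h0 : o (i, 0) <;> cases h1 : o (i, 1) <;> cases hw : w i <;> simp [h0, h1, hw]

theorem f_mirror (G : Shadow k) (w : Fin k → Bool) (o : Fin k × Fin 4 → Bool) :
    G.f (fun i => !(w i)) o = invert (G.f w o) := by
  unfold Shadow.f Shadow.unit
  rw [bracket_mirror, Finset.sum_congr rfl fun i _ => sign_mirror w o i, Finset.sum_neg_distrib,
    map_mul, map_mul, invert_T]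
  simp only [even_neg]
  have e : -3 * -∑ i, Shadow.sign w o i = -(-3 * ∑ i, Shadow.sign w o i) := by ring
  rw [e]
  split_ifs <;> simp

theorem circles_of_one' (G : Shadow k) (w : Fin k → Bool) (o : Fin k × Fin 4 → Bool)
    (ho : G.Oriented o) (hK : G.IsKnot)
    (hP : ∀ i, Shadow.sign w o i = -1) (h1 : G.f w o = 1) : circles G o = k + 1 := by
  refine circles_of_one G (fun i => !(w i)) o ho hK (fun i => ?_) ?_
  · rw [sign_mirror, hP, neg_neg]
  · rw [f_mirror, h1, map_one]

theorem f_bot (G : Shadow k) (w : Fin k → Bool) (o : Fin k × Fin 4 → Bool) (ho : G.Oriented o)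
    (hK : G.IsKnot) (hP : ∀ i, Shadow.sign w o i = -1) :
    (G.f w o).coeff (2 * (k + 1 - circles G o)) = 1 ∧
      ∀ j, j < 2 * ((k : ℤ) + 1 - circles G o) → (G.f w o).coeff j = 0 := by
  have h := f_top G (fun i => !(w i)) o ho hK (fun i => by rw [sign_mirror, hP, neg_neg])
  rw [f_mirror] at h
  constructor
  · have := h.1
    rw [invert_apply] at this
    have e : -(-2 * ((k : ℤ) + 1 - circles G o)) = 2 * (k + 1 - circles G o) := by ring
    rw [e] at this
    exact this
  · intro j hj
    have := h.2 (-j) (by linarith)
    rw [invert_apply, neg_neg] at this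
    exact this

end Pool.Agent.K4H9.PO
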