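import Pool.Agent.H891R2.HO.All
import Pool.Agent.K4H9.PO.Spec

/-! The highest exponent of the normalised bracket. -/

set_option autoImplicit false
set_option linter.unusedSimpArgs false

namespace Pool.Agent.K4H9.PO

open Finset LaurentPolynomial Pool.Agent.H891R2.HO

variable {k : ℕ}

theorem add_one_three (j : Fin 4) : j + 1 + 3 = j := by revert j; decide

theorem checkerboard (G : Shadow k) (o : Fin k × Fin 4 → Bool) (h : NullHomologous G o) :
    G.Checkerboard := by
  obtain ⟨ν, h1, h2⟩ := h
  have key : ∀ a b : ℤ, ∀ t : Bool, a = b + (if t = true then -1 else 1) →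
      decide (Even a) = !(decide (Even b)) := by
    intro a b t e
    subst e
    by_cases hb : Even b
    · have : ¬ Even (b + (if t = true then -1 else 1)) := by
        cases t
        · simpa [Int.even_add_one] using hb
        · simp only [if_true]
          rw [Int.even_add]
          simp [hb]
      simp [hb, this]
    · have : Even (b + (if t = true then -1 else 1)) := by
        cases t
        · simpa [Int.even_add_one] using hb
        · simp only [if_true]
          rw [Int.even_add]
          simp [hb]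
      simp [hb, this]
  refine ⟨fun c => decide (Even (ν c)), fun c => ?_, fun i j => ?_⟩
  · refine key _ _ (o (G.arc c)) ?_
    rw [h2 (G.arc c), ← h1 c]
  · refine key _ _ (o (i, j + 1)) ?_
    rw [h2 (i, j + 1)]
    simp only [add_one_three]

/-- the number on the left of the strand -/
def lam (ν : Fin k × Fin 4 → ℤ) (o : Fin k × Fin 4 → Bool) (c : Fin k × Fin 4) : ℤ :=
  if o c = true then ν (c.1, c.2 + 3) else ν c

theorem lam_arc (G : Shadow k) (o : Fin k × Fin 4 → Bool) (ho : G.Oriented o)
    (ν : Fin k × Fin 4 → ℤ) (h1 : ∀ c, ν c = ν ((G.arc c).1, (G.arc c).2 + 3)) (c : Fin k × Fin 4) :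
    lam ν o (G.arc c) = lam ν o c := by
  unfold lam
  rw [ho.1 c]
  cases h : o c
  · simp only [Bool.not_false, if_true, Bool.false_eq_true, if_false]
    exact (h1 c).symm
  · simp only [Bool.not_true, Bool.false_eq_true, if_false, if_true]
    have := h1 (G.arc c)
    rw [G.arc_arc] at this
    exact this

theorem lam_cross (o : Fin k × Fin 4 → Bool) (ho : ∀ i j, o (i, j + 2) = !(o (i, j)))
    (ν : Fin k × Fin 4 → ℤ)
    (h2 : ∀ c, ν c = ν (c.1, c.2 + 3) + (if o c = true then -1 else 1)) (i : Fin k) :
    (∀ j, lam ν o (i, pair (seifert o i) j) = lam ν o (i, j)) ∧ lam ν o (i, 0) ≠ lam ν o (i, 2) := by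
  have b2 : o (i, 2) = !(o (i, 0)) := ho i 0
  have b3 : o (i, 3) = !(o (i, 1)) := ho i 1
  have a0 : ν (i, 0) = ν (i, 3) + (if o (i, 0) = true then -1 else 1) := h2 (i, 0)
  have a1 : ν (i, 1) = ν (i, 0) + (if o (i, 1) = true then -1 else 1) := h2 (i, 1)
  have a2 : ν (i, 2) = ν (i, 1) + (if o (i, 2) = true then -1 else 1) := h2 (i, 2)
  have a3 : ν (i, 3) = ν (i, 2) + (if o (i, 3) = true then -1 else 1) := h2 (i, 3)
  have L0 : lam ν o (i, 0) = if o (i, 0) = true then ν (i, 3) else ν (i, 0) := rfl
  have L1 : lam ν o (i, 1) = if o (i, 1) = true then ν (i, 0) else ν (i, 1) := rfl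
  have L2 : lam ν o (i, 2) = if o (i, 2) = true then ν (i, 1) else ν (i, 2) := rfl
  have L3 : lam ν o (i, 3) = if o (i, 3) = true then ν (i, 2) else ν (i, 3) := rfl
  have key : ∀ t : Bool, seifert o i = t → (lam ν o (i, pair t 0) = lam ν o (i, 0) ∧
      lam ν o (i, pair t 1) = lam ν o (i, 1) ∧ lam ν o (i, pair t 2) = lam ν o (i, 2) ∧
      lam ν o (i, pair t 3) = lam ν o (i, 3)) ∧ lam ν o (i, 0) ≠ lam ν o (i, 2) := by
    intro t ht
    have ht' : xor (o (i, 0)) (o (i, 1)) = t := ht
    rw [b2] at a2 L2
    rw [b3] at a3 L3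
    cases t
    · show (lam ν o (i, 3) = lam ν o (i, 0) ∧ lam ν o (i, 2) = lam ν o (i, 1) ∧
        lam ν o (i, 1) = lam ν o (i, 2) ∧ lam ν o (i, 0) = lam ν o (i, 3)) ∧ _
      rw [L0, L1, L2, L3]
      cases h0 : o (i, 0) <;> cases h1 : o (i, 1) <;>
        rw [h0, h1] at ht' <;> first
          | exact absurd ht' (by decide)
          | (simp only [h0, h1, Bool.not_true, Bool.not_false, if_true, if_false,
              Bool.false_eq_true] at a0 a1 a2 a3 ⊢
             refine ⟨⟨?_, ?_, ?_, ?_⟩, ?_⟩ <;> first | trivial | omega)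
    · show (lam ν o (i, 1) = lam ν o (i, 0) ∧ lam ν o (i, 0) = lam ν o (i, 1) ∧
        lam ν o (i, 3) = lam ν o (i, 2) ∧ lam ν o (i, 2) = lam ν o (i, 3)) ∧ _
      rw [L0, L1, L2, L3]
      cases h0 : o (i, 0) <;> cases h1 : o (i, 1) <;>
        rw [h0, h1] at ht' <;> first
          | exact absurd ht' (by decide)
          | (simp only [h0, h1, Bool.not_true, Bool.not_false, if_true, if_false,
              Bool.false_eq_true] at a0 a1 a2 a3 ⊢
             refine ⟨⟨?_, ?_, ?_, ?_⟩, ?_⟩ <;> first | trivial | omega)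
  obtain ⟨⟨k0, k1, k2, k3⟩, k4⟩ := key _ rfl
  refine ⟨fun j => ?_, k4⟩
  fin_cases j
  · exact k0
  · exact k1
  · exact k2
  · exact k3

open Pool.Agent.H891R2.HO.O2 in
/-- the corners of a Seifert circle have the same number -/
theorem not_joined (G : Shadow k) (o : Fin k × Fin 4 → Bool) (ho : G.Oriented o)
    (hN : NullHomologous G o) (i : Fin k) :
    Quot.mk (fun c c' : Fin k × Fin 4 => c' = G.arc c ∨ c' = (c.1, pair (seifert o c.1) c.2)) (i, 0) ≠
      Quot.mk _ (i, 2) := by
  obtain ⟨ν, h1, h2⟩ := hN
  intro h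
  have hR : ∀ c c' : Fin k × Fin 4, (c' = G.arc c ∨ c' = (c.1, pair (seifert o c.1) c.2)) →
      lam ν o c = lam ν o c' := by
    rintro c c' (rfl | rfl)
    · exact (lam_arc G o ho ν h1 c).symm
    · exact ((lam_cross o ho.2 ν h2 c.1).1 c.2).symm
  exact (lam_cross o ho.2 ν h2 i).2 (congrArg (Quot.lift (lam ν o) hR) h)

open Pool.Agent.H891R2.HO.O2 in
/-- changing the oriented smoothing of one crossing -/
theorem loops_merge (G : Shadow k) (o : Fin k × Fin 4 → Bool) (ho : G.Oriented o)
    (hN : NullHomologous G o) (i : Fin k) :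
    G.loops (Function.update (seifert o) i (!(seifert o i))) + 1 = circles G o := by
  have hG := checkerboard G o hN
  have h1 := comps_eq G hG i false (seifert o)
  rw [comps_card G hG i false] at h1
  have h2 : Nat.card (Quot (r4 G (seifert o) i)) < circles G o := by
    unfold circles Shadow.loops
    set R : Fin k × Fin 4 → Fin k × Fin 4 → Prop :=
      fun c c' => c' = G.arc c ∨ c' = (c.1, pair (seifert o c.1) c.2) with hRdef
    have hR : ∀ c c', R c c' → Quot.mk (r4 G (seifert o) i) c = Quot.mk (r4 G (seifert o) i) c' := by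
      rintro c c' (rfl | rfl)
      · exact Quot.sound (Or.inl (Or.inl rfl))
      · by_cases hc : c.1 = i
        · exact Quot.sound (Or.inr ⟨hc, hc⟩)
        · exact Quot.sound (Or.inl (Or.inr ⟨hc, rfl⟩))
    have hfin : Finite (Quot R) := Quot.finite _
    have hsurj : Function.Surjective (Quot.lift (fun c => Quot.mk (r4 G (seifert o) i) c) hR) := by
      intro q
      obtain ⟨c, rfl⟩ := Quot.exists_rep q
      exact ⟨Quot.mk _ c, rfl⟩
    refine lt_of_le_of_ne (Nat.card_le_card_of_surjective _ hsurj) ?_
    intro he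
    have hinj := (Nat.bijective_iff_surjective_and_card _).2 ⟨hsurj, he.symm⟩
    refine not_joined G o ho hN i (hinj.1 ?_)
    exact Quot.sound (Or.inr ⟨rfl, rfl⟩)
  rw [h1] at h2
  have h3 := loops_flip G hG (seifert o) i
  have h4 : Function.update (seifert o) i (seifert o i) = seifert o := Function.update_eq_self i _
  have h5 : circles G o = G.loops (Function.update (seifert o) i (seifert o i)) := by rw [h4]; rfl
  rw [h5] at h2 ⊢
  cases hs : seifert o i
  · rw [hs] at h2
    simp only [Bool.not_false]
    omega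
  · rw [hs] at h2
    simp only [Bool.not_true]
    omega

/-! ### the number of circles of the other states -/

/-- the crossings where the state is not the oriented one -/
def dif (o : Fin k × Fin 4 → Bool) (s : Fin k → Bool) : Finset (Fin k) :=
  univ.filter (fun i => s i ≠ seifert o i)

theorem mem_dif (o : Fin k × Fin 4 → Bool) (s : Fin k → Bool) (i : Fin k) :
    i ∈ dif o s ↔ s i ≠ seifert o i := by
  unfold dif
  rw [Finset.mem_filter]
  simp

theorem loops_bound (G : Shadow k) (o : Fin k × Fin 4 → Bool) (ho : G.Oriented o)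
    (hN : NullHomologous G o) : ∀ (n : ℕ) (s : Fin k → Bool), (dif o s).card = n + 1 →
      G.loops s + 1 ≤ circles G o + n
  | 0, s, hs => by
    obtain ⟨i, hi⟩ := Finset.card_eq_one.1 hs
    have e : s = Function.update (seifert o) i (!(seifert o i)) := by
      funext i'
      by_cases h : i' = i
      · subst h
        rw [Function.update_self]
        have : i' ∈ dif o s := by rw [hi]; exact Finset.mem_singleton_self _
        rw [mem_dif] at this
        revert this
        cases s i' <;> cases seifert o i' <;> simp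
      · rw [Function.update_of_ne h]
        by_contra h'
        have : i' ∈ dif o s := (mem_dif o s i').2 h'
        rw [hi, Finset.mem_singleton] at this
        exact h this
    have := loops_merge G o ho hN i
    rw [← e] at this
    omega
  | n + 1, s, hs => by
    obtain ⟨i, hi⟩ : (dif o s).Nonempty := by
      rw [← Finset.card_pos]; omega
    have hi' := (mem_dif o s i).1 hi
    have e : dif o (Function.update s i (seifert o i)) = (dif o s).erase i := by
      ext i'
      rw [Finset.mem_erase, mem_dif, mem_dif]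
      by_cases h : i' = i
      · subst h
        simp
      · rw [Function.update_of_ne h]
        tauto
    have hc : (dif o (Function.update s i (seifert o i))).card = n + 1 := by
      rw [e, Finset.card_erase_of_mem hi, hs]
      rfl
    have ih := loops_bound G o ho hN n _ hc
    have h3 := loops_flip G (checkerboard G o hN) s i
    have h4 : Function.update s i (s i) = s := Function.update_eq_self i _
    rw [← h4]
    revert ih hi'
    cases hs : s i <;> cases hse : seifert o i <;> simp only [ne_eq, not_true, not_false_iff,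
      forall_true_left, false_imp_iff, imp_false, implies_true, Bool.false_eq_true, Bool.true_eq_false,
      not_false_eq_true, reduceCtorEq] <;> omega

theorem seifert_eq (w : Fin k → Bool) (o : Fin k × Fin 4 → Bool) (hP : Positive w o) : w = seifert o := by
  funext i
  have h1 := O6.seifert_sign w o i
  rw [hP i] at h1
  by_contra h
  rw [if_neg (fun h' => h h'.symm)] at h1
  exact absurd h1 (by norm_num)

theorem weight_eq (o : Fin k × Fin 4 → Bool) (s : Fin k → Bool) :
    (∑ i, if s i = seifert o i then (1 : ℤ) else -1) = k - 2 * (dif o s).card := by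
  have h1 : ∀ i, (if s i = seifert o i then (1 : ℤ) else -1) =
      1 - 2 * (if s i ≠ seifert o i then 1 else 0) := by
    intro i
    by_cases h : s i = seifert o i
    · simp [h]
    · simp [h]
  rw [Finset.sum_congr rfl fun i _ => h1 i, Finset.sum_sub_distrib, ← Finset.mul_sum,
    Finset.sum_boole]
  simp [dif]

/-! ### highest exponents -/

/-- the coefficient at `m` is `c`, and the higher ones vanish -/
def Top (m : ℤ) (p : ℤ[T;T⁻¹]) (c : ℤ) : Prop := p.coeff m = c ∧ ∀ j, m < j → p.coeff j = 0

theorem Top.mul_T {m c : ℤ} {p : ℤ[T;T⁻¹]} (h : Top m p c) (n : ℤ) : Top (m + n) (p * T n) c := by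
  constructor
  · rw [O6.coeff_mul_T]
    have : m + n - n = m := by ring
    rw [this]
    exact h.1
  · intro j hj
    rw [O6.coeff_mul_T]
    exact h.2 _ (by omega)

theorem Top.add {m c d : ℤ} {p q : ℤ[T;T⁻¹]} (hp : Top m p c) (hq : Top m q d) :
    Top m (p + q) (c + d) := by
  constructor
  · rw [AddMonoidAlgebra.coeff_add, Finsupp.add_apply, hp.1, hq.1]
  · intro j hj
    rw [AddMonoidAlgebra.coeff_add, Finsupp.add_apply, hp.2 j hj, hq.2 j hj, add_zero]

theorem Top.neg {m c : ℤ} {p : ℤ[T;T⁻¹]} (hp : Top m p c) : Top m (-p) (-c) := by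
  constructor
  · rw [AddMonoidAlgebra.coeff_neg, Finsupp.neg_apply, hp.1]
  · intro j hj
    rw [AddMonoidAlgebra.coeff_neg, Finsupp.neg_apply, hp.2 j hj, neg_zero]

theorem Top.lift {m m' c : ℤ} {p : ℤ[T;T⁻¹]} (hp : Top m p c) (h : m < m') : Top m' p 0 :=
  ⟨hp.2 _ h, fun j hj => hp.2 _ (by omega)⟩

theorem Top.zero (m : ℤ) : Top m 0 0 := ⟨rfl, fun _ _ => rfl⟩

theorem Top.sum {ι : Type*} {m : ℤ} (s : Finset ι) (p : ι → ℤ[T;T⁻¹]) (c : ι → ℤ)
    (h : ∀ i ∈ s, Top m (p i) (c i)) : Top m (∑ i ∈ s, p i) (∑ i ∈ s, c i) := by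
  classical
  induction s using Finset.induction_on with
  | empty => simpa using Top.zero m
  | insert a s ha ih =>
    rw [Finset.sum_insert ha, Finset.sum_insert ha]
    exact (h a (Finset.mem_insert_self a s)).add (ih fun i hi => h i (Finset.mem_insert_of_mem hi))

theorem Top.one : Top 0 (1 : ℤ[T;T⁻¹]) 1 := by
  have h := C_apply (R := ℤ) 1
  constructor
  · have := h 0
    rw [map_one] at this
    rw [this]; simp
  · intro j hj
    have := h j
    rw [map_one] at this
    rw [this, if_neg (by omega)]

theorem Top.dd_pow (n : ℕ) : Top (2 * n) (dd ^ n) ((-1) ^ n) := by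
  induction n with
  | zero => simpa using Top.one
  | succ n ih =>
    have e : (dd : ℤ[T;T⁻¹]) ^ (n + 1) = -(dd ^ n * T 2) + -(dd ^ n * T (-2)) := by
      rw [pow_succ]; unfold dd; ring
    rw [e]
    have h1 := (ih.mul_T 2).neg
    have h2 := (ih.mul_T (-2)).neg.lift (m' := 2 * (n : ℤ) + 2) (by omega)
    have h3 := h1.add h2
    have e1 : (2 * ((n + 1 : ℕ) : ℤ)) = 2 * (n : ℤ) + 2 := by push_cast; ring
    have e2 : ((-1 : ℤ)) ^ (n + 1) = -(-1) ^ n + 0 := by ring
    rw [e1, e2]
    exact h3

/-- the highest exponent of the bracket -/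
theorem bracket_top (G : Shadow k) (w : Fin k → Bool) (o : Fin k × Fin 4 → Bool) (ho : G.Oriented o)
    (hN : NullHomologous G o) (hP : Positive w o) (hl : ∀ s, 1 ≤ G.loops s) :
    Top (k + 2 * (circles G o - 1)) (G.bracket w) ((-1) ^ (circles G o - 1)) := by
  classical
  unfold Shadow.bracket
  rw [seifert_eq w o hP]
  have h1 : ∀ s ∈ (univ : Finset (Fin k → Bool)),
      Top ((k : ℤ) + 2 * ((circles G o : ℤ) - 1))
        (T (∑ i, if s i = seifert o i then 1 else -1) * dd ^ (G.loops s - 1))
        (if s = seifert o then (-1) ^ (circles G o - 1) else 0) := by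
    intro s _
    rw [mul_comm (T _), weight_eq]
    have h2 := (Top.dd_pow (G.loops s - 1)).mul_T ((k : ℤ) - 2 * ((dif o s).card : ℤ))
    by_cases hs : s = seifert o
    · rw [if_pos hs]
      subst hs
      have e : dif o (seifert o) = ∅ := by
        ext i
        rw [mem_dif]
        simp
      rw [e, Finset.card_empty] at h2 ⊢
      have e2 : (2 * ((G.loops (seifert o) - 1 : ℕ) : ℤ) + ((k : ℤ) - 2 * ((0 : ℕ) : ℤ))) =
          (k : ℤ) + 2 * ((circles G o : ℤ) - 1) := by
        have := hl (seifert o)
        unfold circles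
        rw [Nat.cast_sub this]
        push_cast
        ring
      rw [e2] at h2
      exact h2
    · rw [if_neg hs]
      refine h2.lift ?_
      have h3 : (dif o s).card ≠ 0 := by
        intro h
        rw [Finset.card_eq_zero] at h
        apply hs
        funext i
        by_contra h'
        have := (mem_dif o s i).2 h'
        rw [h] at this
        exact absurd this (Finset.notMem_empty i)
      obtain ⟨n, hn⟩ := Nat.exists_eq_succ_of_ne_zero h3
      have h4 := loops_bound G o ho hN n s hn
      have h5 := hl s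
      rw [hn, Nat.cast_sub h5]
      push_cast
      omega
  have h2 := Top.sum univ _ _ h1
  rw [Finset.sum_ite_eq' univ (seifert o) (fun _ => (-1 : ℤ) ^ (circles G o - 1)),
    if_pos (mem_univ _)] at h2
  exact h2

theorem loops_pos (G : Shadow k) (hK : G.IsKnot) (s : Fin k → Bool) : 1 ≤ G.loops s := by
  obtain ⟨c⟩ : Nonempty (Fin k × Fin 4) := by
    unfold Shadow.IsKnot at hK
    have h1 : 0 < Nat.card (Quot (fun c c' : Fin k × Fin 4 =>
      c' = G.arc c ∨ c' = (c.1, c.2 + 2))) := by rw [hK]; exact one_pos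
    have h2 := (Nat.card_pos_iff.mp h1).1
    obtain ⟨q⟩ := h2
    obtain ⟨c, _⟩ := Quot.exists_rep q
    exact ⟨c⟩
  exact O3.loops_pos G c.1 s

/-- the highest exponent of the normalised bracket -/
theorem f_top (G : Shadow k) (w : Fin k → Bool) (o : Fin k × Fin 4 → Bool) (ho : G.Oriented o)
    (hK : G.IsKnot) (hN : NullHomologous G o) (hP : Positive w o) :
    Top (-2 * (k + 1 - circles G o)) (G.f w o) 1 := by
  have h1 := bracket_top G w o ho hN hP (loops_pos G hK)
  have hs : (circles G o + k) % 2 = 1 := loops_seifert G o ho hK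
  have hL : 1 ≤ circles G o := loops_pos G hK _
  have hW : (∑ i, Shadow.sign w o i) = k := by
    rw [Finset.sum_congr rfl fun i _ => hP i]
    simp
  unfold Shadow.f Shadow.unit
  rw [hW]
  have h2 := h1.mul_T (-3 * (k : ℤ))
  have e : (k : ℤ) + 2 * ((circles G o : ℤ) - 1) + -3 * (k : ℤ) = -2 * (k + 1 - circles G o) := by ring
  rw [e] at h2
  by_cases hk : Even (k : ℤ)
  · rw [if_pos hk, one_mul, mul_comm (T _)]
    have hk' : Even k := by exact_mod_cast hk
    have h3 : Even (circles G o - 1) := by
      rw [Nat.even_iff] at hk' ⊢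
      omega
    rw [h3.neg_one_pow] at h2
    exact h2
  · rw [if_neg hk]
    have hk' : ¬ Even k := by exact_mod_cast hk
    have h3 : Odd (circles G o - 1) := by
      rw [Nat.not_even_iff] at hk'
      rw [Nat.odd_iff]
      omega
    rw [h3.neg_one_pow] at h2
    have e1 : (-1 : ℤ[T;T⁻¹]) * T (-3 * (k : ℤ)) * G.bracket w =
        -(G.bracket w * T (-3 * (k : ℤ))) := by ring
    rw [e1]
    have h4 := h2.neg
    rw [neg_neg] at h4
    exact h4

theorem circles_of_one (G : Shadow k) (w : Fin k → Bool) (o : Fin k × Fin 4 → Bool)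
    (ho : G.Oriented o) (hK : G.IsKnot) (hN : NullHomologous G o) (hP : Positive w o)
    (h1 : G.f w o = 1) : circles G o = k + 1 := by
  have h2 := f_top G w o ho hK hN hP
  rw [h1] at h2
  by_contra hne
  have h3 : (1 : ℤ[T;T⁻¹]).coeff (-2 * ((k : ℤ) + 1 - circles G o)) = 0 := by
    have h := C_apply (R := ℤ) 1 (-2 * ((k : ℤ) + 1 - circles G o))
    rw [map_one] at h
    rw [h, if_neg (by omega)]
  exact absurd (h3.symm.trans h2.1) (by norm_num)

/-! ### the mirror image -/

theorem dd_invert : invert dd = dd := by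
  unfold dd
  rw [map_sub, map_neg, invert_T, invert_T]
  simp only [neg_neg]
  ring

theorem bracket_mirror (G : Shadow k) (w : Fin k → Bool) :
    G.bracket (fun i => !(w i)) = invert (G.bracket w) := by
  unfold Shadow.bracket
  rw [map_sum]
  refine Finset.sum_congr rfl fun s _ => ?_
  rw [map_mul, map_pow, dd_invert, invert_T, ← Finset.sum_neg_distrib]
  congr 2
  refine Finset.sum_congr rfl fun i _ => ?_
  cases hs : s i <;> cases hw : w i <;> simp [hs, hw]

theorem sign_mirror (w : Fin k → Bool) (o : Fin k × Fin 4 → Bool) (i : Fin k) :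
    Shadow.sign (fun i => !(w i)) o i = -Shadow.sign w o i := by
  unfold Shadow.sign
  cases h0 : o (i, 0) <;> cases h1 : o (i, 1) <;> cases hw : w i <;> simp [h0, h1, hw]

theorem f_mirror (G : Shadow k) (w : Fin k → Bool) (o : Fin k × Fin 4 → Bool) :
    G.f (fun i => !(w i)) o = invert (G.f w o) := by
  unfold Shadow.f Shadow.unit
  rw [bracket_mirror, Finset.sum_congr rfl fun i _ => sign_mirror w o i, Finset.sum_neg_distrib,
    map_mul, map_mul, invert_T]
  simp only [even_neg]
  have e : -3 * -∑ i, Shadow.sign w o i = -(-3 * ∑ i, Shadow.sign w o i) := by ring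
  rw [e]
  split_ifs <;> simp

theorem circles_of_one' (G : Shadow k) (w : Fin k → Bool) (o : Fin k × Fin 4 → Bool)
    (ho : G.Oriented o) (hK : G.IsKnot) (hN : NullHomologous G o)
    (hP : ∀ i, Shadow.sign w o i = -1) (h1 : G.f w o = 1) : circles G o = k + 1 := by
  refine circles_of_one G (fun i => !(w i)) o ho hK hN (fun i => ?_) ?_
  · rw [sign_mirror, hP, neg_neg]
  · rw [f_mirror, h1, map_one]

theorem f_bot (G : Shadow k) (w : Fin k → Bool) (o : Fin k × Fin 4 → Bool) (ho : G.Oriented o)
    (hK : G.IsKnot) (hN : NullHomologous G o) (hP : ∀ i, Shadow.sign w o i = -1) :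
    (G.f w o).coeff (2 * (k + 1 - circles G o)) = 1 ∧
      ∀ j, j < 2 * ((k : ℤ) + 1 - circles G o) → (G.f w o).coeff j = 0 := by
  have h := f_top G (fun i => !(w i)) o ho hK hN (fun i => by rw [sign_mirror, hP, neg_neg])
  rw [f_mirror] at h
  constructor
  · have := h.1
    rw [invert_apply] at this
    have e : -(-2 * ((k : ℤ) + 1 - circles G o)) = 2 * (k + 1 - circles G o) := by ring
    rw [e] at this
    exact this
  · intro j hj
    have := h.2 (-j) (by linarith)
    rw [invert_apply, neg_neg] at this
    exact this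

end Pool.Agent.K4H9.PO
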