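import Pool.Agent.K4H9.PO.Stm

/-! More pieces. -/

set_option autoImplicit false

namespace Pool.Agent.K4H9.PO

open Pool.Agent.H891R2.HO

/-- PIECE U3 (file `Pool/Agent/K4H9/PO/U3.lean`, `theorem u3 : StU3`): the circles of the states when a kink
is removed; `k ≠ 0` and `G` a knot, `G'` any diagram with `RemoveKink G G' i j` (the proof of `u2` with an
arbitrary state at the other crossings). -/
def StU3 : Prop := ∀ (k : ℕ) (G : Shadow (k + 1)) (G' : Shadow k) (i : Fin (k + 1)) (j : Fin 4), k ≠ 0 →
  G.IsKnot → RemoveKink G G' i j → G'.IsKnot ∧ ∀ s : Fin (k + 1) → Bool,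
    G.loops s = G'.loops (fun a => s (i.succAbove a)) + (if pair (s i) j = j + 1 then 1 else 0)

/-- PIECE U4 (file `Pool/Agent/K4H9/PO/U4.lean`, `theorem u4 : StU3 → StU4`): the normalised bracket of a
diagram which unwinds is `1`.  Induction over `Unwinds`; `k = 0`: `loops = 0`, bracket `1`.  Step for
`k ≠ 0`: `∑ s` over `Fin (k + 1) → Bool` is the sum over `s i` and the rest (`Fin.insertNthEquiv` or
`Shadow`-library `Pool.Agent.H891R2.HO.O3.sum_split`), `T 1 * dd + T (-1) = -T 3` or
`T (-1) * dd + T 1 = -T (-3)`, and the sign of the kink is `±1` accordingly.  Step from `k + 1 = 1` to `0`: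
the two states have `2` and `1` circles. -/
def StU4 : Prop := ∀ (k : ℕ) (G : Shadow k) (w : Fin k → Bool) (o : Fin k × Fin 4 → Bool), Unwinds G →
  (k = 0 ∨ G.IsKnot) → G.Oriented o → G.f w o = 1

end Pool.Agent.K4H9.PO
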