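import Pool.Agent.H891R2.HO.Defs

/-!
# Positive null-homologous knot diagrams on surfaces

`Pool.Agent.H891R2.HO.Defs` (starting library): `Shadow k` (the shadow of a diagram with `k` crossings
on a closed oriented surface), `Shadow.Oriented`, `Shadow.IsKnot`, `Shadow.loops` (number of circles of a
state), `Shadow.sign`, `Shadow.f` (the normalised bracket).
-/

set_option autoImplicit false

namespace Pool.Agent.K4H9.PO

open Pool.Agent.H891R2.HO

variable {k : ℕ}

/-- all crossings are positive -/
def Positive (w : Fin k → Bool) (o : Fin k × Fin 4 → Bool) : Prop := ∀ i, Shadow.sign w o i = 1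

/-- The knot with the diagram `(G, o)` is null-homologous: the regions can be numbered such that the
number on the left of each oriented arc is the number on its right plus one.  `ν (i, j)` is the number of
the region at the crossing `i` between the corners `(i, j)` and `(i, j + 1)`. -/
def NullHomologous (G : Shadow k) (o : Fin k × Fin 4 → Bool) : Prop :=
  ∃ ν : Fin k × Fin 4 → ℤ, (∀ c, ν c = ν ((G.arc c).1, (G.arc c).2 + 3)) ∧
    ∀ c, ν c = ν (c.1, c.2 + 3) + (if o c = true then -1 else 1)

/-- the oriented smoothing of all crossings -/
def seifert (o : Fin k × Fin 4 → Bool) : Fin k → Bool := fun i => xor (o (i, 0)) (o (i, 1))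

/-- the number of Seifert circles -/
noncomputable def circles (G : Shadow k) (o : Fin k × Fin 4 → Bool) : ℕ := G.loops (seifert o)

/-- the corner of the big diagram with the given corner of the small one -/
def emb (i : Fin (k + 1)) (c : Fin k × Fin 4) : Fin (k + 1) × Fin 4 := (i.succAbove c.1, c.2)

/-- `G'` is obtained from `G` by a first Reidemeister move: the arc leaving the crossing `i` at the corner
`(i, j)` returns to the neighbouring corner `(i, j + 1)` of this crossing; this kink is removed, so that the
two other arcs at the crossing `i` are joined. -/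
def RemoveKink (G : Shadow (k + 1)) (G' : Shadow k) (i : Fin (k + 1)) (j : Fin 4) : Prop :=
  G.arc (i, j) = (i, j + 1) ∧ ∀ c, emb i (G'.arc c) =
    if G.arc (emb i c) = (i, j + 2) then G.arc (i, j + 3)
    else if G.arc (emb i c) = (i, j + 3) then G.arc (i, j + 2) else G.arc (emb i c)

/-- the diagram can be reduced to the circle without crossings by removing kinks (first Reidemeister
moves) -/
inductive Unwinds : ∀ {k : ℕ}, Shadow k → Prop
  | zero (G : Shadow 0) : Unwinds G
  | kink {k : ℕ} (G : Shadow (k + 1)) (G' : Shadow k) (i : Fin (k + 1)) (j : Fin 4) :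
      RemoveKink G G' i j → Unwinds G' → Unwinds G

end Pool.Agent.K4H9.PO
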