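import Pool.Agent.K4H9.PO.Spec

/-! Piece U1. -/

set_option autoImplicit false

namespace Pool.Agent.K4H9.PO

open Pool.Agent.H891R2.HO

theorem pair_pair (t : Bool) (j : Fin 4) : pair t (pair t j) = j := by
  revert t j; decide

theorem pair_ne (t : Bool) (j : Fin 4) : pair t j ≠ j := by
  revert t j; decide

theorem pair_adj (t : Bool) (j : Fin 4) : pair t j = j + 1 ∨ j = pair t j + 1 := by
  revert t j; decide

theorem u1 : StU1 := by
  intro k G o hc
  classical
  obtain ⟨b, hb⟩ : ∃ b : Fin (k + 1) × Fin 4 → Fin (k + 1) × Fin 4,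
      ∀ c, b c = (c.1, pair (seifert o c.1) c.2) := ⟨_, fun c => rfl⟩
  have hbb : ∀ c, b (b c) = c := fun c => by
    rw [hb (b c), hb c]
    simp only
    rw [pair_pair]
  have hbne : ∀ c, b c ≠ c := fun c h => by
    rw [hb c] at h
    exact pair_ne _ _ (congrArg Prod.snd h)
  by_cases hex : ∃ c, G.arc c = b c
  · obtain ⟨c, hcc⟩ := hex
    rw [hb] at hcc
    rcases pair_adj (seifert o c.1) c.2 with h | h
    · exact ⟨c.1, c.2, by rw [← h]; exact hcc, h⟩
    · refine ⟨c.1, pair (seifert o c.1) c.2, ?_, ?_⟩
      · rw [← hcc, G.arc_arc, ← h]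
      · rw [pair_pair]; exact h
  · exfalso
    push Not at hex
    set r : Fin (k + 1) × Fin 4 → Fin (k + 1) × Fin 4 → Prop :=
      fun c c' => c' = G.arc c ∨ c' = (c.1, pair (seifert o c.1) c.2) with hr
    have hq : Nat.card (Quot r) = k + 2 := hc
    have hfin : Finite (Quot r) := Quot.finite r
    have : Fintype (Quot r) := Fintype.ofFinite _
    rw [Nat.card_eq_fintype_card] at hq
    have hsum : Fintype.card (Fin (k + 1) × Fin 4) =
        ∑ q : Quot r, (Finset.univ.filter (fun c => Quot.mk r c = q)).card := by
      rw [← Finset.card_univ]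
      exact Finset.card_eq_sum_card_fiberwise (fun c _ => Finset.mem_univ _)
    have hfib : ∀ q : Quot r, 4 ≤ (Finset.univ.filter (fun c => Quot.mk r c = q)).card := by
      intro q
      obtain ⟨c, rfl⟩ := Quot.exists_rep q
      have r1 : ∀ c, r c (G.arc c) := fun c => Or.inl rfl
      have r2 : ∀ c, r c (b c) := fun c => Or.inr (hb c)
      have h1 : Quot.mk r (G.arc c) = Quot.mk r c := (Quot.sound (r1 c)).symm
      have h2 : ∀ c, Quot.mk r (b c) = Quot.mk r c := fun c => (Quot.sound (r2 c)).symm
      have h3 : Quot.mk r (G.arc (b c)) = Quot.mk r c :=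
        (Quot.sound (r1 (b c))).symm.trans (h2 c)
      have hsub : ({c, G.arc c, b c, G.arc (b c)} : Finset _) ⊆
          Finset.univ.filter (fun c' => Quot.mk r c' = Quot.mk r c) := by
        intro d hd
        simp only [Finset.mem_insert, Finset.mem_singleton] at hd
        rw [Finset.mem_filter]
        refine ⟨Finset.mem_univ _, ?_⟩
        rcases hd with rfl | rfl | rfl | rfl
        · rfl
        · exact h1
        · exact h2 _
        · exact h3
      have n1 : c ≠ G.arc c := (G.arc_ne c).symm
      have n2 : c ≠ b c := (hbne c).symm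
      have n3 : c ≠ G.arc (b c) := by
        intro h
        apply hex c
        conv_lhs => rw [h]
        rw [G.arc_arc]
      have n4 : G.arc c ≠ b c := hex c
      have n5 : G.arc c ≠ G.arc (b c) := by
        intro h
        apply n2
        have := congrArg G.arc h
        rwa [G.arc_arc, G.arc_arc] at this
      have n6 : b c ≠ G.arc (b c) := (G.arc_ne _).symm
      calc 4 = ({c, G.arc c, b c, G.arc (b c)} : Finset _).card := by
            rw [Finset.card_insert_of_notMem, Finset.card_insert_of_notMem,
              Finset.card_insert_of_notMem, Finset.card_singleton]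
            · simpa using n6
            · simp only [Finset.mem_insert, Finset.mem_singleton, not_or]
              exact ⟨n4, n5⟩
            · simp only [Finset.mem_insert, Finset.mem_singleton, not_or]
              exact ⟨n1, n2, n3⟩
        _ ≤ _ := Finset.card_le_card hsub
    have h4 : 4 * Fintype.card (Quot r) ≤ Fintype.card (Fin (k + 1) × Fin 4) := by
      rw [hsum, mul_comm, ← smul_eq_mul, ← Finset.card_univ, ← Finset.sum_const]
      exact Finset.sum_le_sum (fun q _ => hfib q)
    rw [hq, Fintype.card_prod, Fintype.card_fin, Fintype.card_fin] at h4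
    omega

end Pool.Agent.K4H9.PO
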