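import Pool.Agent.K4H9.PO.Spec

set_option autoImplicit false

namespace Pool.Agent.K4H9.PO

open Pool.Agent.H891R2.HO

namespace U2

lemma emb_inj {k : ℕ} (i : Fin (k + 1)) : Function.Injective (emb i) := by
  rintro ⟨a, x⟩ ⟨b, y⟩ h
  simp only [emb, Prod.mk.injEq, Fin.succAbove_right_inj] at h
  exact Prod.ext h.1 h.2

lemma emb_ne {k : ℕ} (i : Fin (k + 1)) (c : Fin k × Fin 4) : (emb i c).1 ≠ i := Fin.succAbove_ne i c.1

lemma emb_ex {k : ℕ} (i : Fin (k + 1)) (c : Fin (k + 1) × Fin 4) (h : c.1 ≠ i) : ∃ c', emb i c' = c := by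
  obtain ⟨y, hy⟩ := Fin.exists_succAbove_eq h
  exact ⟨(y, c.2), Prod.ext hy rfl⟩

lemma four (j j' : Fin 4) : j' = j ∨ j' = j + 1 ∨ j' = j + 2 ∨ j' = j + 3 := by
  revert j j'; decide

lemma cases4 {k : ℕ} (i : Fin (k + 1)) (j : Fin 4) (c : Fin (k + 1) × Fin 4) :
    (∃ c', c = emb i c') ∨ c = (i, j) ∨ c = (i, j + 1) ∨ c = (i, j + 2) ∨ c = (i, j + 3) := by
  by_cases h : c.1 = i
  · right
    obtain ⟨a, b⟩ := c
    simp only at h
    subst h
    rcases four j b with h | h | h | h <;> simp [h]
  · left
    obtain ⟨c', hc'⟩ := emb_ex i c h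
    exact ⟨c', hc'.symm⟩

lemma j10 (j : Fin 4) : j + 1 ≠ j := by revert j; decide
lemma j20 (j : Fin 4) : j + 2 ≠ j := by revert j; decide
lemma j30 (j : Fin 4) : j + 3 ≠ j := by revert j; decide
lemma j21 (j : Fin 4) : j + 2 ≠ j + 1 := by revert j; decide
lemma j31 (j : Fin 4) : j + 3 ≠ j + 1 := by revert j; decide
lemma j32 (j : Fin 4) : j + 3 ≠ j + 2 := by revert j; decide
lemma s12 (j : Fin 4) : j + 1 + 2 = j + 3 := by revert j; decide
lemma s22 (j : Fin 4) : j + 2 + 2 = j := by revert j; decide
lemma s32 (j : Fin 4) : j + 3 + 2 = j + 1 := by revert j; decide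

/-- the two free ends of the crossing with the kink are at other crossings -/
lemma ends {k : ℕ} (G : Shadow (k + 1)) (i : Fin (k + 1)) (j : Fin 4) (hk : k ≠ 0) (hG : G.IsKnot)
    (h1 : G.arc (i, j) = (i, j + 1)) :
    ∃ P Q : Fin k × Fin 4, emb i P = G.arc (i, j + 2) ∧ emb i Q = G.arc (i, j + 3) := by
  have h1' : G.arc (i, j + 1) = (i, j) := by rw [← h1, G.arc_arc]
  have hpq : G.arc (i, j + 2) ≠ (i, j + 3) := by
    intro h2
    have h2' : G.arc (i, j + 3) = (i, j + 2) := by rw [← h2, G.arc_arc]
    have hu := hG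
    unfold Shadow.IsKnot at hu
    rw [Nat.card_eq_one_iff_unique] at hu
    obtain ⟨hs, -⟩ := hu
    let f : Quot (fun c c' : Fin (k + 1) × Fin 4 => c' = G.arc c ∨ c' = (c.1, c.2 + 2)) → Prop :=
      Quot.lift (fun c => c.1 = i) (by
        rintro c d (hd | hd)
        · have key : ∀ c : Fin (k + 1) × Fin 4, c.1 = i → (G.arc c).1 = i := by
            intro c hc
            rcases cases4 i j c with ⟨c', h⟩ | h | h | h | h
            · exact absurd (h ▸ hc) (emb_ne i c')
            · rw [h, h1]
            · rw [h, h1']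
            · rw [h, h2]
            · rw [h, h2']
          rw [hd]
          exact propext ⟨key c, fun h => by have := key _ h; rwa [G.arc_arc] at this⟩
        · rw [hd])
    have hx : ∃ x : Fin (k + 1), x ≠ i := by
      obtain ⟨y⟩ : Nonempty (Fin k) := ⟨⟨0, Nat.pos_of_ne_zero hk⟩⟩
      exact ⟨i.succAbove y, Fin.succAbove_ne i y⟩
    obtain ⟨x, hx⟩ := hx
    have e := congrArg f (hs.elim (Quot.mk _ (i, 0)) (Quot.mk _ (x, 0)))
    have e' : (i = i) = (x = i) := e
    exact hx (e' ▸ rfl)
  have hP : (G.arc (i, j + 2)).1 ≠ i := by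
    intro h
    rcases cases4 i j (G.arc (i, j + 2)) with ⟨c', h'⟩ | h' | h' | h' | h'
    · exact emb_ne i c' (h' ▸ h)
    · have := congrArg G.arc h'
      rw [G.arc_arc, h1] at this
      exact j21 j (congrArg Prod.snd this)
    · have := congrArg G.arc h'
      rw [G.arc_arc, h1'] at this
      exact j20 j (congrArg Prod.snd this)
    · exact G.arc_ne _ h'
    · exact hpq h'
  have hQ : (G.arc (i, j + 3)).1 ≠ i := by
    intro h
    rcases cases4 i j (G.arc (i, j + 3)) with ⟨c', h'⟩ | h' | h' | h' | h'
    · exact emb_ne i c' (h' ▸ h)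
    · have := congrArg G.arc h'
      rw [G.arc_arc, h1] at this
      exact j31 j (congrArg Prod.snd this)
    · have := congrArg G.arc h'
      rw [G.arc_arc, h1'] at this
      exact j30 j (congrArg Prod.snd this)
    · have := congrArg G.arc h'
      rw [G.arc_arc] at this
      exact hpq this.symm
    · exact G.arc_ne _ h'
  obtain ⟨P, hP⟩ := emb_ex i _ hP
  obtain ⟨Q, hQ⟩ := emb_ex i _ hQ
  exact ⟨P, Q, hP, hQ⟩

end U2

open U2 in
theorem u2 : StU2 := by
  classical
  intro k G i j hk hG h1
  obtain ⟨P, Q, hP, hQ⟩ := ends G i j hk hG h1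
  have h1' : G.arc (i, j + 1) = (i, j) := by rw [← h1, G.arc_arc]
  have hP' : G.arc (emb i P) = (i, j + 2) := by rw [hP, G.arc_arc]
  have hQ' : G.arc (emb i Q) = (i, j + 3) := by rw [hQ, G.arc_arc]
  have hpq : ((i, j + 3) : Fin (k + 1) × Fin 4) ≠ (i, j + 2) := fun h => j32 j (congrArg Prod.snd h)
  -- the three kinds of corners
  have hcase : ∀ c : Fin k × Fin 4, c = P ∨ c = Q ∨ (G.arc (emb i c) ≠ (i, j + 2) ∧
      G.arc (emb i c) ≠ (i, j + 3) ∧ ∃ d, G.arc (emb i c) = emb i d) := by
    intro c
    rcases cases4 i j (G.arc (emb i c)) with ⟨c', h⟩ | h | h | h | h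
    · right; right
      refine ⟨?_, ?_, c', h⟩
      · rw [h]; intro h'; exact emb_ne i c' (congrArg Prod.fst h')
      · rw [h]; intro h'; exact emb_ne i c' (congrArg Prod.fst h')
    · have := congrArg G.arc h
      rw [G.arc_arc, h1] at this
      exact absurd (congrArg Prod.fst this) (emb_ne i c)
    · have := congrArg G.arc h
      rw [G.arc_arc, h1'] at this
      exact absurd (congrArg Prod.fst this) (emb_ne i c)
    · left
      have := congrArg G.arc h
      rw [G.arc_arc, ← hP] at this
      exact emb_inj i this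
    · right; left
      have := congrArg G.arc h
      rw [G.arc_arc, ← hQ] at this
      exact emb_inj i this
  have hex : ∀ c : Fin k × Fin 4, ∃ d, emb i d =
      if G.arc (emb i c) = (i, j + 2) then G.arc (i, j + 3)
      else if G.arc (emb i c) = (i, j + 3) then G.arc (i, j + 2) else G.arc (emb i c) := by
    intro c
    rcases hcase c with h | h | ⟨ha, hb, d, hd⟩
    · rw [h, if_pos hP']; exact ⟨Q, hQ⟩
    · rw [h, hQ', if_neg hpq, if_pos rfl]; exact ⟨P, hP⟩
    · rw [if_neg ha, if_neg hb]; exact ⟨d, hd.symm⟩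
  choose b hb using hex
  have bP : b P = Q := emb_inj i (by rw [hb, if_pos hP', hQ])
  have bQ : b Q = P := emb_inj i (by rw [hb, hQ', if_neg hpq, if_pos rfl, hP])
  have bR : ∀ c d, G.arc (emb i c) = emb i d → b c = d := by
    intro c d h
    apply emb_inj i
    rw [hb, if_neg, if_neg, h]
    · rw [h]; intro h'; exact emb_ne i d (congrArg Prod.fst h')
    · rw [h]; intro h'; exact emb_ne i d (congrArg Prod.fst h')
  have hPQ : P ≠ Q := by
    intro h
    rw [h, hQ'] at hP'
    exact hpq hP'
  let G' : Shadow k :=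
    { arc := b
      arc_arc := by
        intro c
        rcases hcase c with h | h | ⟨-, -, d, hd⟩
        · rw [h, bP, bQ]
        · rw [h, bQ, bP]
        · rw [bR c d hd]
          exact bR d c (by rw [← hd, G.arc_arc])
      arc_ne := by
        intro c
        rcases hcase c with h | h | ⟨-, -, d, hd⟩
        · rw [h, bP]; exact hPQ.symm
        · rw [h, bQ]; exact hPQ
        · rw [bR c d hd]
          intro h
          rw [h] at hd
          exact G.arc_ne _ hd }
  have hnr : ∀ x : Fin 4, ¬ ∃ c, emb i c = (i, x) := by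
    rintro x ⟨c, hc⟩
    exact emb_ne i c (congrArg Prod.fst hc)
  refine ⟨G', ⟨h1, hb⟩, ?_, ?_⟩
  · -- knot
    unfold Shadow.IsKnot at hG ⊢
    rw [Nat.card_eq_one_iff_unique] at hG ⊢
    obtain ⟨hs, -⟩ := hG
    let R' := fun c c' : Fin k × Fin 4 => c' = G'.arc c ∨ c' = (c.1, c.2 + 2)
    let Φ : Fin (k + 1) × Fin 4 → Quot R' :=
      Function.extend (emb i) (fun c => Quot.mk R' c) (fun _ => Quot.mk R' P)
    have Φ1 : ∀ c, Φ (emb i c) = Quot.mk R' c := fun c => (emb_inj i).extend_apply _ _ c
    have Φ2 : ∀ x, Φ (i, x) = Quot.mk R' P := fun x => Function.extend_apply' _ _ _ (hnr x)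
    have R1 : ∀ c, Quot.mk R' (b c) = Quot.mk R' c :=
      fun c => (Quot.sound (show R' c (b c) from Or.inl rfl)).symm
    have R2 : ∀ c : Fin k × Fin 4, Quot.mk R' (c.1, c.2 + 2) = Quot.mk R' c :=
      fun c => (Quot.sound (show R' c (c.1, c.2 + 2) from Or.inr rfl)).symm
    have PQ : Quot.mk R' P = Quot.mk R' Q := by rw [← bP, R1]
    have Φa : ∀ c, Φ (G.arc c) = Φ c := by
      intro c
      rcases cases4 i j c with ⟨c', h⟩ | h | h | h | h
      · rw [h]
        rcases hcase c' with h | h | ⟨-, -, d, hd⟩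
        · rw [h, hP', Φ1, Φ2]
        · rw [h, hQ', Φ1, Φ2, PQ]
        · rw [hd, Φ1, Φ1]
          rw [← bR c' d hd, R1]
      · rw [h, h1, Φ2, Φ2]
      · rw [h, h1', Φ2, Φ2]
      · rw [h, ← hP, Φ1, Φ2]
      · rw [h, ← hQ, Φ1, Φ2, PQ]
    have Φb : ∀ c : Fin (k + 1) × Fin 4, Φ (c.1, c.2 + 2) = Φ c := by
      intro c
      rcases cases4 i j c with ⟨c', h⟩ | h | h | h | h
      · rw [h, Φ1]
        have : ((emb i c').1, (emb i c').2 + 2) = emb i (c'.1, c'.2 + 2) := rfl
        rw [this, Φ1, R2]
      all_goals rw [h, Φ2, Φ2]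
    let F : Quot (fun c c' : Fin (k + 1) × Fin 4 => c' = G.arc c ∨ c' = (c.1, c.2 + 2)) → Quot R' :=
      Quot.lift Φ (by
        rintro c d (hd | hd)
        · rw [hd, Φa]
        · rw [hd, Φb])
    refine ⟨⟨fun x y => ?_⟩, ⟨Quot.mk _ P⟩⟩
    induction x using Quot.ind with
    | mk x =>
      induction y using Quot.ind with
      | mk y =>
        have e : Φ (emb i x) = Φ (emb i y) := congrArg F (hs.elim (Quot.mk _ (emb i x)) (Quot.mk _ (emb i y)))
        rw [Φ1, Φ1] at e
        exact e
  · intro o ho hp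
    have ho1 : ∀ x : Fin 4, o (i, x + 2) = !(o (i, x)) := fun x => ho.2 i x
    have ho3 : o (i, j + 3) = !(o (i, j + 2)) := by
      rw [← s12 j, ho1, ho1, ← h1, ho.1]
    refine ⟨⟨?_, fun x y => ho.2 (i.succAbove x) y⟩, ?_⟩
    · intro c
      change o (emb i (b c)) = !(o (emb i c))
      rcases hcase c with h | h | ⟨-, -, d, hd⟩
      · rw [h, bP, hQ, hP, ho.1, ho.1, ho3]
      · rw [h, bQ, hQ, hP, ho.1, ho.1, ho3]; simp
      · rw [bR c d hd, ← hd, ho.1]
    · -- circles
      unfold circles Shadow.loops
      set s := seifert o with hs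
      have hs' : seifert (fun c => o (emb i c)) = fun x => s (i.succAbove x) := rfl
      rw [hs']
      have hpj : ∀ x : Fin 4, pair (s i) (pair (s i) x) = x := by
        intro x
        generalize s i = t
        revert t x
        decide
      have hp1 : pair (s i) (j + 1) = j := by rw [← hp, hpj]
      have hp2 : pair (s i) (j + 2) = j + 3 := by
        have key : ∀ (t : Bool) (x : Fin 4), pair t x = x + 1 → pair t (x + 2) = x + 3 := by decide
        exact key _ _ hp
      have hp3 : pair (s i) (j + 3) = j + 2 := by rw [← hp2, hpj]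
      let S' := fun c c' : Fin k × Fin 4 => c' = G'.arc c ∨ c' = (c.1, pair (s (i.succAbove c.1)) c.2)
      let S := fun c c' : Fin (k + 1) × Fin 4 => c' = G.arc c ∨ c' = (c.1, pair (s c.1) c.2)
      change Nat.card (Quot S) = Nat.card (Quot S') + 1
      let Φ : Fin (k + 1) × Fin 4 → Option (Quot S') :=
        Function.extend (emb i) (fun c => some (Quot.mk S' c))
          (fun c => if c = (i, j) ∨ c = (i, j + 1) then none else some (Quot.mk S' P))
      have Φ1 : ∀ c, Φ (emb i c) = some (Quot.mk S' c) := fun c => (emb_inj i).extend_apply _ _ c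
      have Φ2 : Φ (i, j) = none := by
        have := Function.extend_apply' (f := emb i) (fun c => some (Quot.mk S' c))
          (fun c => if c = (i, j) ∨ c = (i, j + 1) then none else some (Quot.mk S' P)) _ (hnr j)
        refine this.trans ?_
        rw [if_pos (Or.inl rfl)]
      have Φ3 : Φ (i, j + 1) = none := by
        have := Function.extend_apply' (f := emb i) (fun c => some (Quot.mk S' c))
          (fun c => if c = (i, j) ∨ c = (i, j + 1) then none else some (Quot.mk S' P)) _ (hnr (j + 1))
        refine this.trans ?_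
        rw [if_pos (Or.inr rfl)]
      have Φ4 : Φ (i, j + 2) = some (Quot.mk S' P) := by
        have := Function.extend_apply' (f := emb i) (fun c => some (Quot.mk S' c))
          (fun c => if c = (i, j) ∨ c = (i, j + 1) then none else some (Quot.mk S' P)) _ (hnr (j + 2))
        refine this.trans ?_
        rw [if_neg]
        rintro (h | h)
        · exact j20 j (congrArg Prod.snd h)
        · exact j21 j (congrArg Prod.snd h)
      have Φ5 : Φ (i, j + 3) = some (Quot.mk S' P) := by
        have := Function.extend_apply' (f := emb i) (fun c => some (Quot.mk S' c))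
          (fun c => if c = (i, j) ∨ c = (i, j + 1) then none else some (Quot.mk S' P)) _ (hnr (j + 3))
        refine this.trans ?_
        rw [if_neg]
        rintro (h | h)
        · exact j30 j (congrArg Prod.snd h)
        · exact j31 j (congrArg Prod.snd h)
      have R1 : ∀ c, Quot.mk S' (b c) = Quot.mk S' c :=
        fun c => (Quot.sound (show S' c (b c) from Or.inl rfl)).symm
      have R2 : ∀ c : Fin k × Fin 4, Quot.mk S' (c.1, pair (s (i.succAbove c.1)) c.2) = Quot.mk S' c :=
        fun c => (Quot.sound (show S' c (c.1, pair (s (i.succAbove c.1)) c.2) from Or.inr rfl)).symm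
      have PQ : Quot.mk S' P = Quot.mk S' Q := by rw [← bP, R1]
      have Φa : ∀ c, Φ (G.arc c) = Φ c := by
        intro c
        rcases cases4 i j c with ⟨c', h⟩ | h | h | h | h
        · rw [h]
          rcases hcase c' with h | h | ⟨-, -, d, hd⟩
          · rw [h, hP', Φ1, Φ4]
          · rw [h, hQ', Φ1, Φ5, PQ]
          · rw [hd, Φ1, Φ1]
            rw [← bR c' d hd, R1]
        · rw [h, h1, Φ2, Φ3]
        · rw [h, h1', Φ2, Φ3]
        · rw [h, ← hP, Φ1, Φ4]
        · rw [h, ← hQ, Φ1, Φ5, PQ]
      have Φb : ∀ c : Fin (k + 1) × Fin 4, Φ (c.1, pair (s c.1) c.2) = Φ c := by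
        intro c
        rcases cases4 i j c with ⟨c', h⟩ | h | h | h | h
        · rw [h, Φ1]
          have : ((emb i c').1, pair (s (emb i c').1) (emb i c').2) =
            emb i (c'.1, pair (s (i.succAbove c'.1)) c'.2) := rfl
          rw [this, Φ1, R2]
        · rw [h]; simp only; rw [hp, Φ2, Φ3]
        · rw [h]; simp only; rw [hp1, Φ2, Φ3]
        · rw [h]; simp only; rw [hp2, Φ4, Φ5]
        · rw [h]; simp only; rw [hp3, Φ4, Φ5]
      let F : Quot S → Option (Quot S') :=
        Quot.lift Φ (by
          rintro c d (hd | hd)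
          · rw [hd, Φa]
          · rw [hd, Φb])
      have S1 : ∀ c, Quot.mk S (G.arc c) = Quot.mk S c :=
        fun c => (Quot.sound (show S c (G.arc c) from Or.inl rfl)).symm
      have S2 : ∀ c : Fin (k + 1) × Fin 4, Quot.mk S (c.1, pair (s c.1) c.2) = Quot.mk S c :=
        fun c => (Quot.sound (show S c (c.1, pair (s c.1) c.2) from Or.inr rfl)).symm
      have S01 : Quot.mk S (i, j + 1) = Quot.mk S (i, j) := by rw [← h1, S1]
      have S23 : Quot.mk S (i, j + 3) = Quot.mk S (i, j + 2) := by
        have := S2 (i, j + 2)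
        simp only at this
        rw [hp2] at this
        exact this
      have SP : Quot.mk S (emb i P) = Quot.mk S (i, j + 2) := by rw [hP, S1]
      have SQ : Quot.mk S (emb i Q) = Quot.mk S (i, j + 3) := by rw [hQ, S1]
      let H : Option (Quot S') → Quot S := fun x => x.elim (Quot.mk S (i, j))
        (Quot.lift (fun c => Quot.mk S (emb i c)) (by
          rintro c d (hd | hd)
          · rw [hd]
            change Quot.mk S (emb i c) = Quot.mk S (emb i (b c))
            rcases hcase c with h | h | ⟨-, -, d, hd⟩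
            · rw [h, bP, SP, SQ, S23]
            · rw [h, bQ, SP, SQ, S23]
            · rw [bR c d hd, ← hd, S1]
          · rw [hd]
            exact (S2 (emb i c)).symm))
      have e : Quot S ≃ Option (Quot S') :=
        { toFun := F
          invFun := H
          left_inv := by
            intro x
            induction x using Quot.ind with
            | mk c =>
              change H (Φ c) = Quot.mk S c
              rcases cases4 i j c with ⟨c', h⟩ | h | h | h | h
              · rw [h, Φ1]; rfl
              · rw [h, Φ2]; rfl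
              · rw [h, Φ3, S01]; rfl
              · rw [h, Φ4, ← SP]; rfl
              · rw [h, Φ5, S23, ← SP]; rfl
          right_inv := by
            intro x
            cases x with
            | none => exact Φ2
            | some x =>
              induction x using Quot.ind with
              | mk c => exact Φ1 c }
      rw [Nat.card_congr e, Finite.card_option]

end Pool.Agent.K4H9.PO
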