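import Pool.Agent.K4H9.PO.Spec2
import Pool.Agent.K4H9.PO.U2

set_option autoImplicit false

namespace Pool.Agent.K4H9.PO

open Pool.Agent.H891R2.HO

open U2 in
theorem u3 : StU3 := by
  classical
  intro k G G' i j hk hG hrem
  obtain ⟨h1, hb⟩ := hrem
  obtain ⟨P, Q, hP, hQ⟩ := ends G i j hk hG h1
  have h1' : G.arc (i, j + 1) = (i, j) := by rw [← h1, G.arc_arc]
  have hP' : G.arc (emb i P) = (i, j + 2) := by rw [hP, G.arc_arc]
  have hQ' : G.arc (emb i Q) = (i, j + 3) := by rw [hQ, G.arc_arc]
  have hpq : ((i, j + 3) : Fin (k + 1) × Fin 4) ≠ (i, j + 2) := fun h => j32 j (congrArg Prod.snd h)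
  -- the three kinds of corners
  have hcase : ∀ c : Fin k × Fin 4, c = P ∨ c = Q ∨ (G.arc (emb i c) ≠ (i, j + 2) ∧
      G.arc (emb i c) ≠ (i, j + 3) ∧ ∃ d, G.arc (emb i c) = emb i d) := by
    intro c
    rcases cases4 i j (G.arc (emb i c)) with ⟨c', h⟩ | h | h | h | h
    · right; right
      refine ⟨?_, ?_, c', h⟩
      · rw [h]; intro h'; exact emb_ne i c' (congrArg Prod.fst h')
      · rw [h]; intro h'; exact emb_ne i c' (congrArg Prod.fst h')
    · have := congrArg G.arc h
      rw [G.arc_arc, h1] at this
      exact absurd (congrArg Prod.fst this) (emb_ne i c)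
    · have := congrArg G.arc h
      rw [G.arc_arc, h1'] at this
      exact absurd (congrArg Prod.fst this) (emb_ne i c)
    · left
      have := congrArg G.arc h
      rw [G.arc_arc, ← hP] at this
      exact emb_inj i this
    · right; left
      have := congrArg G.arc h
      rw [G.arc_arc, ← hQ] at this
      exact emb_inj i this
  set b := G'.arc with hbdef
  have bP : b P = Q := emb_inj i (by rw [hb, if_pos hP', hQ])
  have bQ : b Q = P := emb_inj i (by rw [hb, hQ', if_neg hpq, if_pos rfl, hP])
  have bR : ∀ c d, G.arc (emb i c) = emb i d → b c = d := by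
    intro c d h
    apply emb_inj i
    rw [hb, if_neg, if_neg, h]
    · rw [h]; intro h'; exact emb_ne i d (congrArg Prod.fst h')
    · rw [h]; intro h'; exact emb_ne i d (congrArg Prod.fst h')
  have hnr : ∀ x : Fin 4, ¬ ∃ c, emb i c = (i, x) := by
    rintro x ⟨c, hc⟩
    exact emb_ne i c (congrArg Prod.fst hc)
  refine ⟨?_, ?_⟩
  · -- knot
    unfold Shadow.IsKnot at hG ⊢
    rw [Nat.card_eq_one_iff_unique] at hG ⊢
    obtain ⟨hs, -⟩ := hG
    let R' := fun c c' : Fin k × Fin 4 => c' = G'.arc c ∨ c' = (c.1, c.2 + 2)
    let Φ : Fin (k + 1) × Fin 4 → Quot R' :=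
      Function.extend (emb i) (fun c => Quot.mk R' c) (fun _ => Quot.mk R' P)
    have Φ1 : ∀ c, Φ (emb i c) = Quot.mk R' c := fun c => (emb_inj i).extend_apply _ _ c
    have Φ2 : ∀ x, Φ (i, x) = Quot.mk R' P := fun x => Function.extend_apply' _ _ _ (hnr x)
    have R1 : ∀ c, Quot.mk R' (b c) = Quot.mk R' c :=
      fun c => (Quot.sound (show R' c (b c) from Or.inl rfl)).symm
    have R2 : ∀ c : Fin k × Fin 4, Quot.mk R' (c.1, c.2 + 2) = Quot.mk R' c :=
      fun c => (Quot.sound (show R' c (c.1, c.2 + 2) from Or.inr rfl)).symm
    have PQ : Quot.mk R' P = Quot.mk R' Q := by rw [← bP, R1]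
    have Φa : ∀ c, Φ (G.arc c) = Φ c := by
      intro c
      rcases cases4 i j c with ⟨c', h⟩ | h | h | h | h
      · rw [h]
        rcases hcase c' with h | h | ⟨-, -, d, hd⟩
        · rw [h, hP', Φ1, Φ2]
        · rw [h, hQ', Φ1, Φ2, PQ]
        · rw [hd, Φ1, Φ1]
          rw [← bR c' d hd, R1]
      · rw [h, h1, Φ2, Φ2]
      · rw [h, h1', Φ2, Φ2]
      · rw [h, ← hP, Φ1, Φ2]
      · rw [h, ← hQ, Φ1, Φ2, PQ]
    have Φb : ∀ c : Fin (k + 1) × Fin 4, Φ (c.1, c.2 + 2) = Φ c := by
      intro c
      rcases cases4 i j c with ⟨c', h⟩ | h | h | h | h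
      · rw [h, Φ1]
        have : ((emb i c').1, (emb i c').2 + 2) = emb i (c'.1, c'.2 + 2) := rfl
        rw [this, Φ1, R2]
      all_goals rw [h, Φ2, Φ2]
    let F : Quot (fun c c' : Fin (k + 1) × Fin 4 => c' = G.arc c ∨ c' = (c.1, c.2 + 2)) → Quot R' :=
      Quot.lift Φ (by
        rintro c d (hd | hd)
        · rw [hd, Φa]
        · rw [hd, Φb])
    refine ⟨⟨fun x y => ?_⟩, ⟨Quot.mk _ P⟩⟩
    induction x using Quot.ind with
    | mk x =>
      induction y using Quot.ind with
      | mk y =>
        have e : Φ (emb i x) = Φ (emb i y) := congrArg F (hs.elim (Quot.mk _ (emb i x)) (Quot.mk _ (emb i y)))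
        rw [Φ1, Φ1] at e
        exact e
  · intro s
    -- circles
    unfold Shadow.loops
    have hpj : ∀ x : Fin 4, pair (s i) (pair (s i) x) = x := by
      intro x
      generalize s i = t
      revert t x
      decide
    let S' := fun c c' : Fin k × Fin 4 => c' = G'.arc c ∨ c' = (c.1, pair (s (i.succAbove c.1)) c.2)
    let S := fun c c' : Fin (k + 1) × Fin 4 => c' = G.arc c ∨ c' = (c.1, pair (s c.1) c.2)
    change Nat.card (Quot S) = Nat.card (Quot S') + _
    have R1 : ∀ c, Quot.mk S' (b c) = Quot.mk S' c :=
      fun c => (Quot.sound (show S' c (b c) from Or.inl rfl)).symm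
    have R2 : ∀ c : Fin k × Fin 4, Quot.mk S' (c.1, pair (s (i.succAbove c.1)) c.2) = Quot.mk S' c :=
      fun c => (Quot.sound (show S' c (c.1, pair (s (i.succAbove c.1)) c.2) from Or.inr rfl)).symm
    have PQ : Quot.mk S' P = Quot.mk S' Q := by rw [← bP, R1]
    have S1 : ∀ c, Quot.mk S (G.arc c) = Quot.mk S c :=
      fun c => (Quot.sound (show S c (G.arc c) from Or.inl rfl)).symm
    have S2 : ∀ c : Fin (k + 1) × Fin 4, Quot.mk S (c.1, pair (s c.1) c.2) = Quot.mk S c :=
      fun c => (Quot.sound (show S c (c.1, pair (s c.1) c.2) from Or.inr rfl)).symm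
    have S01 : Quot.mk S (i, j + 1) = Quot.mk S (i, j) := by rw [← h1, S1]
    have SP : Quot.mk S (emb i P) = Quot.mk S (i, j + 2) := by rw [hP, S1]
    have SQ : Quot.mk S (emb i Q) = Quot.mk S (i, j + 3) := by rw [hQ, S1]
    by_cases hp : pair (s i) j = j + 1
    · rw [if_pos hp]
      have hp1 : pair (s i) (j + 1) = j := by rw [← hp, hpj]
      have hp2 : pair (s i) (j + 2) = j + 3 := by
        have key : ∀ (t : Bool) (x : Fin 4), pair t x = x + 1 → pair t (x + 2) = x + 3 := by decide
        exact key _ _ hp
      have hp3 : pair (s i) (j + 3) = j + 2 := by rw [← hp2, hpj]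
      let Φ : Fin (k + 1) × Fin 4 → Option (Quot S') :=
        Function.extend (emb i) (fun c => some (Quot.mk S' c))
          (fun c => if c = (i, j) ∨ c = (i, j + 1) then none else some (Quot.mk S' P))
      have Φ1 : ∀ c, Φ (emb i c) = some (Quot.mk S' c) := fun c => (emb_inj i).extend_apply _ _ c
      have Φ2 : Φ (i, j) = none := by
        have := Function.extend_apply' (f := emb i) (fun c => some (Quot.mk S' c))
          (fun c => if c = (i, j) ∨ c = (i, j + 1) then none else some (Quot.mk S' P)) _ (hnr j)
        refine this.trans ?_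
        rw [if_pos (Or.inl rfl)]
      have Φ3 : Φ (i, j + 1) = none := by
        have := Function.extend_apply' (f := emb i) (fun c => some (Quot.mk S' c))
          (fun c => if c = (i, j) ∨ c = (i, j + 1) then none else some (Quot.mk S' P)) _ (hnr (j + 1))
        refine this.trans ?_
        rw [if_pos (Or.inr rfl)]
      have Φ4 : Φ (i, j + 2) = some (Quot.mk S' P) := by
        have := Function.extend_apply' (f := emb i) (fun c => some (Quot.mk S' c))
          (fun c => if c = (i, j) ∨ c = (i, j + 1) then none else some (Quot.mk S' P)) _ (hnr (j + 2))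
        refine this.trans ?_
        rw [if_neg]
        rintro (h | h)
        · exact j20 j (congrArg Prod.snd h)
        · exact j21 j (congrArg Prod.snd h)
      have Φ5 : Φ (i, j + 3) = some (Quot.mk S' P) := by
        have := Function.extend_apply' (f := emb i) (fun c => some (Quot.mk S' c))
          (fun c => if c = (i, j) ∨ c = (i, j + 1) then none else some (Quot.mk S' P)) _ (hnr (j + 3))
        refine this.trans ?_
        rw [if_neg]
        rintro (h | h)
        · exact j30 j (congrArg Prod.snd h)
        · exact j31 j (congrArg Prod.snd h)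
      have Φa : ∀ c, Φ (G.arc c) = Φ c := by
        intro c
        rcases cases4 i j c with ⟨c', h⟩ | h | h | h | h
        · rw [h]
          rcases hcase c' with h | h | ⟨-, -, d, hd⟩
          · rw [h, hP', Φ1, Φ4]
          · rw [h, hQ', Φ1, Φ5, PQ]
          · rw [hd, Φ1, Φ1]
            rw [← bR c' d hd, R1]
        · rw [h, h1, Φ2, Φ3]
        · rw [h, h1', Φ2, Φ3]
        · rw [h, ← hP, Φ1, Φ4]
        · rw [h, ← hQ, Φ1, Φ5, PQ]
      have Φb : ∀ c : Fin (k + 1) × Fin 4, Φ (c.1, pair (s c.1) c.2) = Φ c := by
        intro c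
        rcases cases4 i j c with ⟨c', h⟩ | h | h | h | h
        · rw [h, Φ1]
          have : ((emb i c').1, pair (s (emb i c').1) (emb i c').2) =
            emb i (c'.1, pair (s (i.succAbove c'.1)) c'.2) := rfl
          rw [this, Φ1, R2]
        · rw [h]; simp only; rw [hp, Φ2, Φ3]
        · rw [h]; simp only; rw [hp1, Φ2, Φ3]
        · rw [h]; simp only; rw [hp2, Φ4, Φ5]
        · rw [h]; simp only; rw [hp3, Φ4, Φ5]
      let F : Quot S → Option (Quot S') :=
        Quot.lift Φ (by
          rintro c d (hd | hd)
          · rw [hd, Φa]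
          · rw [hd, Φb])
      have S23 : Quot.mk S (i, j + 3) = Quot.mk S (i, j + 2) := by
        have := S2 (i, j + 2)
        simp only at this
        rw [hp2] at this
        exact this
      let H : Option (Quot S') → Quot S := fun x => x.elim (Quot.mk S (i, j))
        (Quot.lift (fun c => Quot.mk S (emb i c)) (by
          rintro c d (hd | hd)
          · rw [hd]
            change Quot.mk S (emb i c) = Quot.mk S (emb i (b c))
            rcases hcase c with h | h | ⟨-, -, d, hd⟩
            · rw [h, bP, SP, SQ, S23]
            · rw [h, bQ, SP, SQ, S23]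
            · rw [bR c d hd, ← hd, S1]
          · rw [hd]
            exact (S2 (emb i c)).symm))
      have e : Quot S ≃ Option (Quot S') :=
        { toFun := F
          invFun := H
          left_inv := by
            intro x
            induction x using Quot.ind with
            | mk c =>
              change H (Φ c) = Quot.mk S c
              rcases cases4 i j c with ⟨c', h⟩ | h | h | h | h
              · rw [h, Φ1]; rfl
              · rw [h, Φ2]; rfl
              · rw [h, Φ3, S01]; rfl
              · rw [h, Φ4, ← SP]; rfl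
              · rw [h, Φ5, S23, ← SP]; rfl
          right_inv := by
            intro x
            cases x with
            | none => exact Φ2
            | some x =>
              induction x using Quot.ind with
              | mk c => exact Φ1 c }
      rw [Nat.card_congr e, Finite.card_option]
    · rw [if_neg hp, add_zero]
      have hp0 : pair (s i) j = j + 3 := by
        have key : ∀ (t : Bool) (x : Fin 4), pair t x ≠ x + 1 → pair t x = x + 3 := by decide
        exact key _ _ hp
      have hp1 : pair (s i) (j + 1) = j + 2 := by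
        have key : ∀ (t : Bool) (x : Fin 4), pair t x ≠ x + 1 → pair t (x + 1) = x + 2 := by decide
        exact key _ _ hp
      have S03 : Quot.mk S (i, j + 3) = Quot.mk S (i, j) := by
        have := S2 (i, j)
        simp only at this
        rw [hp0] at this
        exact this
      have S12 : Quot.mk S (i, j + 2) = Quot.mk S (i, j + 1) := by
        have := S2 (i, j + 1)
        simp only at this
        rw [hp1] at this
        exact this
      let Φ : Fin (k + 1) × Fin 4 → Quot S' :=
        Function.extend (emb i) (fun c => Quot.mk S' c) (fun _ => Quot.mk S' P)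
      have Φ1 : ∀ c, Φ (emb i c) = Quot.mk S' c := fun c => (emb_inj i).extend_apply _ _ c
      have Φ2 : ∀ x, Φ (i, x) = Quot.mk S' P := fun x => Function.extend_apply' _ _ _ (hnr x)
      have Φa : ∀ c, Φ (G.arc c) = Φ c := by
        intro c
        rcases cases4 i j c with ⟨c', h⟩ | h | h | h | h
        · rw [h]
          rcases hcase c' with h | h | ⟨-, -, d, hd⟩
          · rw [h, hP', Φ1, Φ2]
          · rw [h, hQ', Φ1, Φ2, PQ]
          · rw [hd, Φ1, Φ1]
            rw [← bR c' d hd, R1]
        · rw [h, h1, Φ2, Φ2]
        · rw [h, h1', Φ2, Φ2]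
        · rw [h, ← hP, Φ1, Φ2]
        · rw [h, ← hQ, Φ1, Φ2, PQ]
      have Φb : ∀ c : Fin (k + 1) × Fin 4, Φ (c.1, pair (s c.1) c.2) = Φ c := by
        intro c
        rcases cases4 i j c with ⟨c', h⟩ | h | h | h | h
        · rw [h, Φ1]
          have : ((emb i c').1, pair (s (emb i c').1) (emb i c').2) =
            emb i (c'.1, pair (s (i.succAbove c'.1)) c'.2) := rfl
          rw [this, Φ1, R2]
        all_goals rw [h, Φ2, Φ2]
      let F : Quot S → Quot S' :=
        Quot.lift Φ (by
          rintro c d (hd | hd)
          · rw [hd, Φa]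
          · rw [hd, Φb])
      let H : Quot S' → Quot S :=
        Quot.lift (fun c => Quot.mk S (emb i c)) (by
          rintro c d (hd | hd)
          · rw [hd]
            change Quot.mk S (emb i c) = Quot.mk S (emb i (b c))
            rcases hcase c with h | h | ⟨-, -, d, hd⟩
            · rw [h, bP, SP, SQ, S03, S12, S01]
            · rw [h, bQ, SP, SQ, S03, S12, S01]
            · rw [bR c d hd, ← hd, S1]
          · rw [hd]
            exact (S2 (emb i c)).symm)
      have e : Quot S ≃ Quot S' :=
        { toFun := F
          invFun := H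
          left_inv := by
            intro x
            induction x using Quot.ind with
            | mk c =>
              change H (Φ c) = Quot.mk S c
              have HP : H (Quot.mk S' P) = Quot.mk S (i, j + 2) := SP
              rcases cases4 i j c with ⟨c', h⟩ | h | h | h | h
              · rw [h, Φ1]
              · rw [h, Φ2, HP, S12, S01]
              · rw [h, Φ2, HP, S12]
              · rw [h, Φ2, HP]
              · rw [h, Φ2, HP, S12, S01, S03]
          right_inv := by
            intro x
            induction x using Quot.ind with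
            | mk c => exact Φ1 c }
      rw [Nat.card_congr e]

end Pool.Agent.K4H9.PO
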