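import Pool.Agent.K4H9.PO.Spec2
import Pool.Agent.H891R2.HO.O3
import Pool.Agent.H891R2.HO.O6

/-! Piece U4: the normalised bracket of a diagram which unwinds is `1`. -/

set_option autoImplicit false

namespace Pool.Agent.K4H9.PO

open Finset LaurentPolynomial Pool.Agent.H891R2.HO

namespace U4

variable {k : ℕ}

theorem four (j : Fin 4) : j = 0 ∨ j = 1 ∨ j = 2 ∨ j = 3 := by revert j; decide

theorem pair_seif (t : Bool) (j : Fin 4) (x : Fin 4 → Bool) (h0 : x 2 = !(x 0)) (h1 : x 3 = !(x 1))
    (h : x (j + 1) = !(x j)) : pair t j = j + 1 ↔ t = xor (x 0) (x 1) := by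
  obtain rfl | rfl | rfl | rfl := four j
  · have e : x 1 = !(x 0) := h
    rw [e]
    cases x 0 <;> cases t <;> decide
  · have e : x 2 = !(x 1) := h
    rw [h0] at e
    have e' : x 1 = x 0 := by
      cases h3 : x 0 <;> cases h4 : x 1 <;> simp_all
    rw [e']
    cases x 0 <;> cases t <;> decide
  · have e : x 3 = !(x 2) := h
    rw [h1, h0] at e
    have e' : x 1 = !(x 0) := by
      cases h3 : x 0 <;> cases h4 : x 1 <;> simp_all
    rw [e']
    cases x 0 <;> cases t <;> decide
  · have e : x 0 = !(x 3) := h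
    rw [h1] at e
    have e' : x 1 = x 0 := by
      cases h3 : x 0 <;> cases h4 : x 1 <;> simp_all
    rw [e']
    cases x 0 <;> cases t <;> decide

theorem unit_add (m n : ℤ) : Shadow.unit (m + n) = Shadow.unit m * Shadow.unit n := by
  unfold Shadow.unit
  have h1 : (T (-3 * (m + n)) : ℤ[T;T⁻¹]) = T (-3 * m) * T (-3 * n) := by
    rw [← T_add]
    congr 1
    ring
  rw [h1]
  by_cases hm : Even m <;> by_cases hn : Even n
  · rw [if_pos hm, if_pos hn, if_pos (hm.add hn)]; ring
  · rw [if_pos hm, if_neg hn, if_neg (by rw [Int.even_add]; tauto)]; ring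
  · rw [if_neg hm, if_pos hn, if_neg (by rw [Int.even_add]; tauto)]; ring
  · rw [if_neg hm, if_neg hn, if_pos (by rw [Int.even_add]; tauto)]; ring

theorem unit_zero : Shadow.unit 0 = 1 := by
  unfold Shadow.unit
  simp

theorem unit_one_mul : Shadow.unit 1 * (T 1 * dd + T (-1)) = 1 := by
  unfold Shadow.unit dd
  rw [if_neg (by decide)]
  have : (-1 * T (-3 * 1) * (T 1 * (-T 2 - T (-2)) + T (-1)) : ℤ[T;T⁻¹]) =
      T (-3) * T 1 * T 2 + T (-3) * T 1 * T (-2) - T (-3) * T (-1) := by
    rw [mul_one]; ring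
  rw [this, ← T_add, ← T_add, ← T_add, ← T_add]
  norm_num

theorem unit_neg_one_mul : Shadow.unit (-1) * (T (-1) * dd + T 1) = 1 := by
  unfold Shadow.unit dd
  rw [if_neg (by decide)]
  have : (-1 * T (-3 * -1) * (T (-1) * (-T 2 - T (-2)) + T 1) : ℤ[T;T⁻¹]) =
      T 3 * T (-1) * T 2 + T 3 * T (-1) * T (-2) - T 3 * T 1 := by
    rw [show (-3 * -1 : ℤ) = 3 by norm_num]; ring
  rw [this, ← T_add, ← T_add, ← T_add, ← T_add]
  norm_num

theorem unit_mul (σ : ℤ) (h : σ = 1 ∨ σ = -1) :
    Shadow.unit σ * (T σ * dd + T (-σ)) = 1 := by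
  rcases h with rfl | rfl
  · exact unit_one_mul
  · rw [neg_neg]; exact unit_neg_one_mul

theorem bracket_eq (G : Shadow (k + 1)) (w : Fin (k + 1) → Bool) (i : Fin (k + 1)) (t : Bool)
    (σ : ℤ) (hσ : σ = if t = w i then 1 else -1) (L : (Fin k → Bool) → ℕ) (hL : ∀ s, 1 ≤ L s)
    (hl : ∀ s, G.loops s = L (fun a => s (i.succAbove a)) + (if s i = t then 1 else 0)) :
    G.bracket w = (T σ * dd + T (-σ)) *
      ∑ s : Fin k → Bool, T (∑ a, if s a = w (i.succAbove a) then 1 else -1) * dd ^ (L s - 1) := by
  unfold Shadow.bracket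
  rw [← (Fin.insertNthEquiv (fun _ => Bool) i).sum_comp, Fintype.sum_prod_type_right,
    Finset.mul_sum]
  refine Finset.sum_congr rfl fun s _ => ?_
  rw [Fintype.sum_bool]
  have key : ∀ b : Bool,
      (T (∑ a, if (Fin.insertNthEquiv (fun _ => Bool) i) (b, s) a = w a then 1 else -1) *
        dd ^ (G.loops ((Fin.insertNthEquiv (fun _ => Bool) i) (b, s)) - 1) : ℤ[T;T⁻¹]) =
      T (if b = w i then 1 else -1) * (dd ^ (if b = t then 1 else 0)) *
        (T (∑ a, if s a = w (i.succAbove a) then 1 else -1) * dd ^ (L s - 1)) := by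
    intro b
    have e1 : (Fin.insertNthEquiv (fun _ => Bool) i) (b, s) = Fin.insertNth i b s := rfl
    rw [e1, Fin.sum_univ_succAbove _ i, T_add, hl]
    simp only [Fin.insertNth_apply_same, Fin.insertNth_apply_succAbove]
    have e2 : L s + (if b = t then 1 else 0) - 1 = (if b = t then 1 else 0) + (L s - 1) := by
      have := hL s
      omega
    rw [e2, pow_add]
    ring
  rw [key true, key false, ← add_mul]
  congr 1
  rw [hσ]
  cases t <;> cases w i <;> simp [add_comm]

theorem f_eq (G : Shadow (k + 1)) (w : Fin (k + 1) → Bool) (o : Fin (k + 1) × Fin 4 → Bool)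
    (i : Fin (k + 1)) (L : (Fin k → Bool) → ℕ) (hL : ∀ s, 1 ≤ L s)
    (hl : ∀ s, G.loops s = L (fun a => s (i.succAbove a)) +
      (if s i = xor (o (i, 0)) (o (i, 1)) then 1 else 0)) :
    G.f w o = Shadow.unit (∑ a : Fin k, Shadow.sign w o (i.succAbove a)) *
      ∑ s : Fin k → Bool, T (∑ a, if s a = w (i.succAbove a) then 1 else -1) * dd ^ (L s - 1) := by
  unfold Shadow.f
  rw [bracket_eq G w i _ (Shadow.sign w o i) (O6.seifert_sign w o i).symm L hL hl,
    Fin.sum_univ_succAbove _ i, unit_add]
  have h1 : Shadow.sign w o i = 1 ∨ Shadow.sign w o i = -1 := by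
    unfold Shadow.sign
    split_ifs
    · exact Or.inr rfl
    · exact Or.inl rfl
  have h2 := unit_mul _ h1
  calc _ = (Shadow.unit (Shadow.sign w o i) *
        (T (Shadow.sign w o i) * dd + T (-(Shadow.sign w o i)))) *
        (Shadow.unit (∑ a : Fin k, Shadow.sign w o (i.succAbove a)) *
      ∑ s : Fin k → Bool, T (∑ a, if s a = w (i.succAbove a) then 1 else -1) * dd ^ (L s - 1)) := by
        ring
    _ = _ := by rw [h2, one_mul]

theorem four' (j x : Fin 4) : x = j ∨ x = j + 1 ∨ x = j + 2 ∨ x = j + 3 := by revert j x; decide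

theorem ne4 (j : Fin 4) : j + 2 ≠ j ∧ j + 2 ≠ j + 1 ∧ j + 3 ≠ j ∧ j + 3 ≠ j + 1 := by
  revert j; decide

theorem arcs (G : Shadow 1) (j : Fin 4) (h : G.arc (0, j) = (0, j + 1)) :
    G.arc (0, j + 1) = (0, j) ∧ G.arc (0, j + 2) = (0, j + 3) ∧ G.arc (0, j + 3) = (0, j + 2) := by
  have h1 : G.arc (0, j + 1) = (0, j) := by rw [← h, G.arc_arc]
  have h2 : G.arc (0, j + 2) = (0, j + 3) := by
    obtain ⟨x, hx⟩ : ∃ x, G.arc (0, j + 2) = (0, x) :=
      ⟨(G.arc (0, j + 2)).2, Prod.ext (Subsingleton.elim _ _) rfl⟩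
    rcases four' j x with rfl | rfl | rfl | rfl
    · exfalso
      have := G.arc_arc (0, x + 2)
      rw [hx, h] at this
      have := congrArg Prod.snd this
      simp only at this
      revert this
      generalize x = y
      revert y
      decide
    · exfalso
      have := G.arc_arc (0, j + 2)
      rw [hx, h1] at this
      have := congrArg Prod.snd this
      simp only at this
      revert this
      generalize j = y
      revert y
      decide
    · exact absurd hx (G.arc_ne _)
    · exact hx
  exact ⟨h1, h2, by rw [← h2, G.arc_arc]⟩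

theorem loops_one (G : Shadow 1) (j : Fin 4) (h : G.arc (0, j) = (0, j + 1)) (s : Fin 1 → Bool) :
    G.loops s = 1 + (if pair (s 0) j = j + 1 then 1 else 0) := by
  obtain ⟨h1, h2, h3⟩ := arcs G j h
  unfold Shadow.loops
  set r : Fin 1 × Fin 4 → Fin 1 × Fin 4 → Prop :=
    fun c c' => c' = G.arc c ∨ c' = (c.1, pair (s c.1) c.2) with hr
  have e1 : Quot.mk r (0, j) = Quot.mk r (0, j + 1) := Quot.sound (Or.inl h.symm)
  have e2 : Quot.mk r (0, j + 2) = Quot.mk r (0, j + 3) := Quot.sound (Or.inl h2.symm)
  by_cases hp : pair (s 0) j = j + 1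
  · rw [if_pos hp]
    have hpair : ∀ x, ((x = j ∨ x = j + 1) ↔ (pair (s 0) x = j ∨ pair (s 0) x = j + 1)) := by
      revert hp
      generalize s 0 = t
      clear_value r
      clear h h1 h2 h3 e1 e2 hr
      revert t j
      decide
    have harc : ∀ c, ((c.2 = j ∨ c.2 = j + 1) ↔ ((G.arc c).2 = j ∨ (G.arc c).2 = j + 1)) := by
      rintro ⟨a, x⟩
      obtain rfl : a = 0 := Subsingleton.elim _ _
      rcases four' j x with rfl | rfl | rfl | rfl
      · rw [h]; simp
      · rw [h1]; simp
      · rw [h2]
        clear_value r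
        clear h h1 h2 h3 e1 e2 hr hp hpair
        revert j
        decide
      · rw [h3]
        clear_value r
        clear h h1 h2 h3 e1 e2 hr hp hpair
        revert j
        decide
    let F : Quot r → Bool := Quot.lift (fun c => decide (c.2 = j ∨ c.2 = j + 1)) (by
      rintro c c' (rfl | rfl)
      · exact decide_eq_decide.2 (harc c)
      · have : s c.1 = s 0 := congrArg s (Subsingleton.elim _ _)
        simp only [this]
        exact decide_eq_decide.2 (hpair c.2))
    have hF : Function.Bijective F := by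
      constructor
      · rintro ⟨⟨a, x⟩⟩ ⟨⟨b, y⟩⟩ hxy
        obtain rfl : a = 0 := Subsingleton.elim _ _
        obtain rfl : b = 0 := Subsingleton.elim _ _
        have hxy' : (x = j ∨ x = j + 1) ↔ (y = j ∨ y = j + 1) := decide_eq_decide.1 hxy
        obtain ⟨n1, n2, n3, n4⟩ := ne4 j
        show Quot.mk r (0, x) = Quot.mk r (0, y)
        rcases four' j x with hx | hx | hx | hx <;> rcases four' j y with hy | hy | hy | hy <;>
          rw [hx, hy] at hxy' ⊢ <;>
          first
          | exact e1
          | exact e1.symm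
          | exact e2
          | exact e2.symm
          | (exfalso; tauto)
      · intro b
        cases b
        · refine ⟨Quot.mk _ (0, j + 2), ?_⟩
          obtain ⟨n1, n2, n3, n4⟩ := ne4 j
          refine decide_eq_false ?_
          rintro (h5 | h5)
          · exact n1 h5
          · exact n2 h5
        · exact ⟨Quot.mk _ (0, j), decide_eq_true (Or.inl rfl)⟩
    rw [Nat.card_congr (Equiv.ofBijective F hF)]
    simp
  · rw [if_neg hp, add_zero, Nat.card_eq_one_iff_unique]
    have hp' : pair (s 0) j = j + 3 ∧ pair (s 0) (j + 1) = j + 2 := by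
      revert hp
      generalize s 0 = t
      clear_value r
      clear h h1 h2 h3 e1 e2 hr
      revert t j
      decide
    have e3 : Quot.mk r (0, j) = Quot.mk r (0, j + 3) :=
      Quot.sound (Or.inr (by rw [← hp'.1]))
    have hall : ∀ x, Quot.mk r (0, x) = Quot.mk r (0, j) := by
      intro x
      rcases four' j x with rfl | rfl | rfl | rfl
      · rfl
      · exact e1.symm
      · exact e2.trans e3.symm
      · exact e3.symm
    refine ⟨⟨?_⟩, ⟨Quot.mk r (0, j)⟩⟩
    rintro ⟨⟨a, x⟩⟩ ⟨⟨b, y⟩⟩
    obtain rfl : a = 0 := Subsingleton.elim _ _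
    obtain rfl : b = 0 := Subsingleton.elim _ _
    exact (hall x).trans (hall y).symm

end U4

theorem u4 (u3 : StU3) : StU4 := by
  intro k G w o hG
  induction hG with
  | zero G =>
    intro _ _
    unfold Shadow.f Shadow.bracket
    have h0 : ∀ s, G.loops s = 0 := by
      intro s
      unfold Shadow.loops
      have : IsEmpty (Quot (fun c c' : Fin 0 × Fin 4 => c' = G.arc c ∨
        c' = (c.1, pair (s c.1) c.2))) := ⟨fun q => by
          induction q using Quot.ind with
          | mk c => exact c.1.elim0⟩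
      exact Nat.card_of_isEmpty
    simp [h0, U4.unit_zero]
  | kink G G' i j hR hU ih =>
    rename_i k
    intro hk ho
    have hK : G.IsKnot := hk.resolve_left (Nat.succ_ne_zero k)
    have hs := fun t => U4.pair_seif t j (fun x => o (i, x)) (ho.2 i 0) (ho.2 i 1)
      (by
        have h1 := ho.1 (i, j)
        rw [hR.1] at h1
        exact h1)
    by_cases hk0 : k = 0
    · subst hk0
      have hi : i = 0 := Fin.eq_zero i
      subst hi
      rw [U4.f_eq G w o 0 (fun _ => 1) (fun _ => le_rfl)]
      · simp [U4.unit_zero]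
      · intro s
        rw [U4.loops_one G j hR.1 s]
        congr 1
        exact if_congr (hs (s 0)) rfl rfl
    · obtain ⟨hK', hl⟩ := u3 k G G' i j hk0 hK hR
      have ho' : G'.Oriented (fun c => o (emb i c)) := by
        refine ⟨fun c => ?_, fun a x => ho.2 _ x⟩
        have h1 : o (i, j + 1) = !(o (i, j)) := by
          have h1 := ho.1 (i, j)
          rwa [hR.1] at h1
        have h2 : o (i, j + 2) = !(o (i, j)) := ho.2 i j
        have h3 : o (i, j + 3) = o (i, j) := by
          have := ho.2 i (j + 1)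
          rw [show j + 1 + 2 = j + 3 by rw [add_assoc]; rfl, h1, Bool.not_not] at this
          exact this
        show o (emb i (G'.arc c)) = !(o (emb i c))
        rw [hR.2 c]
        have h4 := ho.1 (emb i c)
        by_cases hA : G.arc (emb i c) = (i, j + 2)
        · rw [if_pos hA, ho.1, h3]
          rw [hA, h2] at h4
          rw [← h4]
        · rw [if_neg hA]
          by_cases hB : G.arc (emb i c) = (i, j + 3)
          · rw [if_pos hB, ho.1, h2]
            rw [hB, h3] at h4
            rw [h4, Bool.not_not]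
          · rw [if_neg hB, h4]
      have hf := ih (fun a => w (i.succAbove a)) (fun c => o (emb i c)) (Or.inr hK') ho'
      rw [U4.f_eq G w o i (fun s => G'.loops s)
        (fun s => O3.loops_pos G' ⟨0, Nat.pos_of_ne_zero hk0⟩ s)]
      · exact hf
      · intro s
        rw [hl s]
        congr 1
        exact if_congr (hs (s i)) rfl rfl

end Pool.Agent.K4H9.PO
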